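import Mathlib

/-!
# Nibble in a linear weighted hypergraph: definitions

`H : NH η N` is a linear hypergraph of rank at most three (hyperedges `H.E`, the elements of `e` are
`H.inc e`) with weights `ω e` and saturations `s v ∈ [0, 1]`: the sum of the weights of the hyperedges at
`v` is `s v` up to `e₀ / 2`, the total weight is `n` up to `e₀ n / 2`. We choose a sequence of disjoint
hyperedges; at time `t` (after `t n` steps) an element `v` should be covered with probability `t s v`,
so a hyperedge is alive with probability `∏ v ∈ inc e, (1 - t s v)`; the next hyperedge is chosen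
with weight `w t e = ω e / ∏ v ∈ inc e, (1 - t s v)` among the alive ones. With this normalization the
sums `M t A f = ∑ e alive, f e w t e` and `X t A v = (1 - t s v) ∑ e alive, v ∈ e, w t e` (`v` not
covered) have constant expected values.
-/

set_option autoImplicit false

namespace Pool.Agent.W_cd7020_h81n

open Finset

/-- A linear weighted hypergraph. -/
structure NH (η N : Type*) [DecidableEq η] [DecidableEq N] where
  /-- the hyperedges -/
  E : Finset η
  /-- the elements of a hyperedge -/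
  inc : η → Finset N
  /-- the saturations -/
  s : N → ℝ
  /-- the weights -/
  ω : η → ℝ
  n : ℕ
  τ : ℝ
  e₀ : ℝ
  inc3 : ∀ e ∈ E, (inc e).card ≤ 3
  inc1 : ∀ e ∈ E, (inc e).Nonempty
  lin : ∀ e ∈ E, ∀ e' ∈ E, e ≠ e' → (inc e ∩ inc e').card ≤ 1
  s0 : ∀ v, 0 ≤ s v
  s1 : ∀ v, s v ≤ 1
  ω0 : ∀ e ∈ E, 0 ≤ ω e
  ω2 : ∀ e ∈ E, ω e ≤ 2 / n
  τ0 : 0 < τ
  τ1 : τ ≤ 1
  e0 : 0 < e₀
  e8 : e₀ ≤ τ ^ 96 / 8
  n1 : 70 / (e₀ * τ ^ 3) ≤ n
  sat : ∀ v ∈ E.biUnion inc, |∑ e ∈ E.filter (fun e => v ∈ inc e), ω e - s v| ≤ e₀ / 2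
  tot : |∑ e ∈ E, ω e - n| ≤ e₀ / 2 * n

namespace NH

variable {η N : Type*} [DecidableEq η] [DecidableEq N] (H : NH η N)

/-- the covered elements -/
def cov (A : Finset η) : Finset N := A.biUnion H.inc

/-- the alive hyperedges -/
def al (A : Finset η) : Finset η := H.E.filter (fun e => Disjoint (H.inc e) (H.cov A))

/-- the weights at time `t` -/
noncomputable def w (t : ℝ) (e : η) : ℝ := H.ω e / ∏ v ∈ H.inc e, (1 - t * H.s v)

/-- the normalized sum of `f` -/
noncomputable def M (t : ℝ) (A : Finset η) (f : η → ℝ) : ℝ := ∑ e ∈ H.al A, f e * H.w t e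

/-- the initial value of `M` -/
noncomputable def M₀ (f : η → ℝ) : ℝ := ∑ e ∈ H.E, f e * H.ω e

/-- the total weight -/
noncomputable def Z (t : ℝ) (A : Finset η) : ℝ := H.M t A (fun _ => 1)

/-- the normalized sum at `v` -/
noncomputable def X (t : ℝ) (A : Finset η) (v : N) : ℝ :=
  (1 - t * H.s v) * ∑ e ∈ (H.al A).filter (fun e => v ∈ H.inc e), H.w t e

/-- the probability of `e` in the next step -/
noncomputable def p (t : ℝ) (A : Finset η) (e : η) : ℝ := H.w t e / H.Z t A

/-- the probability that `v` is covered in the next step -/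
noncomputable def P (t : ℝ) (A : Finset η) (v : N) : ℝ :=
  ∑ e ∈ (H.al A).filter (fun e => v ∈ H.inc e), H.p t A e

/-- the relative growth of the factor of `v` in the next step -/
noncomputable def r (t : ℝ) (v : N) : ℝ := H.s v / H.n / (1 - (t + 1 / H.n) * H.s v)

/-- the small number `1 / (n τ)` -/
noncomputable def ρ : ℝ := 1 / (H.n * H.τ)

/-- The situation before a step: time `t`, chosen hyperedges `A`, error bound `ε`. -/
structure St (t ε : ℝ) (A : Finset η) : Prop where
  t0 : 0 ≤ t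
  t1 : t + 1 / H.n ≤ 1 - H.τ
  ε0 : H.e₀ ≤ ε
  ε8 : ε ≤ 1 / 8
  hX : ∀ v ∈ H.E.biUnion H.inc, v ∉ H.cov A → |H.X t A v - H.s v| ≤ ε
  hZ : |H.Z t A - H.n| ≤ 3 / 2 * ε * H.n

/-- The potential. -/
noncomputable def Φ (lam : ℝ) {ι : Type*} (I : Finset ι) (f : ι → η → ℝ) (t ε : ℝ)
    (A : Finset η) : ℝ :=
  ∑ v ∈ H.E.biUnion H.inc \ H.cov A, Real.cosh (lam * ((H.X t A v - H.s v) / ε)) +
    ∑ i ∈ I, Real.cosh (lam * ((H.M t A (f i) - H.M₀ (f i)) / H.n / ε)) +
    ∑ i ∈ I, Real.cosh (lam * ((∑ e ∈ A, f i e - t * H.M₀ (f i)) / H.n / ε))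

/-- The error bound after `i` steps. -/
noncomputable def er (i : ℕ) : ℝ := H.e₀ / (1 - i / H.n) ^ 96

end NH

/-- The total cost of a list of choices (the last choice is the head). -/
def totcost {η : Type*} (cost : List η → η → ℝ) : List η → ℝ
  | [] => 0
  | e :: l => totcost cost l + cost l e

end Pool.Agent.W_cd7020_h81n
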