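import Pool.Agent.W_cd7020_h81n.NGS

/-!
# The nibble theorem
-/

set_option autoImplicit false

namespace Pool.Agent.W_cd7020_h81n

open Finset

namespace NH

variable {η N : Type*} [DecidableEq η] [DecidableEq N] (H : NH η N)

theorem NI_cov_empty : H.cov ∅ = ∅ := by
  simp [NH.cov]

theorem NI_al_empty : H.al ∅ = H.E := by
  simp [NH.al, NI_cov_empty]

theorem NI_w_zero (e : η) : H.w 0 e = H.ω e := by
  simp [NH.w]

theorem NI_er_zero : H.er 0 = H.e₀ := by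
  simp [NH.er]

theorem NI_cosh_le_exp (x : ℝ) (hx : 0 ≤ x) : Real.cosh x ≤ Real.exp x := by
  rw [Real.cosh_eq]
  have : Real.exp (-x) ≤ Real.exp x := Real.exp_le_exp.mpr (by linarith)
  linarith

/-- The potential at the start is at most `J₀ exp (lam / 2)`: the summands are at most
`cosh (lam / 2)` (`sat`), `1` and `1`. -/
theorem pot_init (lam : ℝ) (hlam : 0 < lam) {ι : Type*} (I : Finset ι) (f : ι → η → ℝ) :
    H.Φ lam I f ((0 : ℕ) / H.n) (H.er 0) ∅ ≤
      ((H.E.biUnion H.inc).card + 2 * I.card) * Real.exp (lam / 2) := by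
  have he := H.e0
  have hexp1 : 1 ≤ Real.exp (lam / 2) := Real.one_le_exp (by linarith)
  have h1 : ∑ v ∈ H.E.biUnion H.inc \ H.cov ∅,
      Real.cosh (lam * ((H.X ((0 : ℕ) / H.n) ∅ v - H.s v) / H.er 0)) ≤
      (H.E.biUnion H.inc).card * Real.exp (lam / 2) := by
    rw [NI_cov_empty, Finset.sdiff_empty, ← nsmul_eq_mul]
    apply Finset.sum_le_card_nsmul
    intro v hv
    have hs := H.sat v hv
    have hX : H.X ((0 : ℕ) / H.n) ∅ v = ∑ e ∈ H.E.filter (fun e => v ∈ H.inc e), H.ω e := by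
      simp [NH.X, NI_al_empty, NI_w_zero]
    rw [hX, NI_er_zero]
    have h2 : |lam * ((∑ e ∈ H.E.filter (fun e => v ∈ H.inc e), H.ω e - H.s v) / H.e₀)| ≤
        |lam / 2| := by
      rw [abs_mul, abs_div, abs_of_pos hlam, abs_of_pos he, abs_of_pos (by linarith : 0 < lam / 2)]
      have : |∑ e ∈ H.E.filter (fun e => v ∈ H.inc e), H.ω e - H.s v| / H.e₀ ≤ 1 / 2 := by
        rw [div_le_iff₀ he]
        linarith
      nlinarith
    exact le_trans (Real.cosh_le_cosh.mpr h2) (NI_cosh_le_exp _ (by linarith))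
  have h2 : ∑ i ∈ I, Real.cosh (lam * ((H.M ((0 : ℕ) / H.n) ∅ (f i) - H.M₀ (f i)) / H.n /
      H.er 0)) ≤ I.card * Real.exp (lam / 2) := by
    rw [← nsmul_eq_mul]
    apply Finset.sum_le_card_nsmul
    intro i hi
    have : H.M ((0 : ℕ) / H.n) ∅ (f i) = H.M₀ (f i) := by
      simp [NH.M, NH.M₀, NI_al_empty, NI_w_zero]
    rw [this]
    simpa using hexp1
  have h3 : ∑ i ∈ I, Real.cosh (lam * ((∑ e ∈ (∅ : Finset η), f i e -
      ((0 : ℕ) / H.n : ℝ) * H.M₀ (f i)) / H.n / H.er 0)) ≤ I.card * Real.exp (lam / 2) := by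
    rw [← nsmul_eq_mul]
    apply Finset.sum_le_card_nsmul
    intro i hi
    simpa using hexp1
  unfold NH.Φ
  linarith

/-- The numbers: `hh ≤ 19 / (n τ² e₀)` as `e₀ ≤ 1/8`; so `lam hh ≤ 1` and
`(1 + (lam hh)²)^n ≤ exp (n (lam hh)²) ≤ 2`. -/
theorem num_hh (lam : ℝ) (hlam : 1 ≤ lam) (hn : 600 * lam ^ 2 / (H.τ ^ 4 * H.e₀ ^ 2) ≤ H.n)
    (hh : ℝ) (hhh : hh = 7 / (H.n * H.τ ^ 2 * H.e₀) + 96 / (H.n * H.τ)) :
    lam * hh ≤ 1 ∧ (1 + (lam * hh) ^ 2) ^ H.n ≤ 2 := by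
  have hn0 := H.n_pos
  have ht := H.τ0
  have ht1 := H.τ1
  have he := H.e0
  have he8 : H.e₀ ≤ 1 / 8 := by
    have : H.τ ^ 96 ≤ 1 := pow_le_one₀ ht.le ht1
    have := H.e8
    linarith
  set q : ℝ := H.τ ^ 2 * H.e₀ with hq
  have hq0 : 0 < q := by positivity
  have hq1 : q ≤ 1 / 8 := by
    have : H.τ ^ 2 ≤ 1 := pow_le_one₀ ht.le ht1
    rw [hq]
    nlinarith
  have hqq : H.τ ^ 4 * H.e₀ ^ 2 = q ^ 2 := by rw [hq]; ring
  rw [hqq, div_le_iff₀ (by positivity)] at hn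
  have hhb : hh ≤ 19 / (H.n * q) := by
    rw [hhh]
    have e1 : (7 : ℝ) / (H.n * H.τ ^ 2 * H.e₀) = 7 / (H.n * q) := by rw [hq]; ring
    have e2 : (96 : ℝ) / (H.n * H.τ) ≤ 12 / (H.n * q) := by
      rw [div_le_div_iff₀ (by positivity) (by positivity), hq]
      have : H.τ * H.e₀ ≤ 1 / 8 := by nlinarith
      have h3 : 0 < (H.n : ℝ) * H.τ := by positivity
      nlinarith
    rw [e1]
    calc 7 / (H.n * q) + 96 / (H.n * H.τ) ≤ 7 / (H.n * q) + 12 / (H.n * q) := by linarith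
      _ = 19 / (H.n * q) := by ring
  have hh0 : 0 ≤ hh := by rw [hhh]; positivity
  have hx : lam * hh ≤ 19 * lam / (H.n * q) := by
    calc lam * hh ≤ lam * (19 / (H.n * q)) := by gcongr
      _ = 19 * lam / (H.n * q) := by ring
  constructor
  · refine hx.trans ?_
    rw [div_le_one (by positivity)]
    have h5 : 600 * lam ^ 2 ≤ (H.n * q) * q := by nlinarith
    have h6 : (H.n * q) * q ≤ (H.n * q) * (1 / 8) := by gcongr
    nlinarith
  · have hx2 : (H.n : ℝ) * (lam * hh) ^ 2 ≤ 361 / 600 := by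
      have h7 : (lam * hh) ^ 2 ≤ (19 * lam / (H.n * q)) ^ 2 := by gcongr
      calc (H.n : ℝ) * (lam * hh) ^ 2 ≤ H.n * (19 * lam / (H.n * q)) ^ 2 := by gcongr
        _ = 361 * lam ^ 2 / (H.n * q ^ 2) := by
          field_simp
          ring
        _ ≤ 361 / 600 := by
          rw [div_le_div_iff₀ (by positivity) (by norm_num)]
          nlinarith
    have h8 : (1 + (lam * hh) ^ 2) ^ H.n ≤ Real.exp (H.n * (lam * hh) ^ 2) := by
      rw [Real.exp_nat_mul]
      gcongr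
      have := Real.add_one_le_exp ((lam * hh) ^ 2)
      linarith
    refine h8.trans ?_
    have h9 : (H.n : ℝ) * (lam * hh) ^ 2 ≤ Real.log 2 := by
      have := Real.log_two_gt_d9
      linarith
    calc Real.exp (H.n * (lam * hh) ^ 2) ≤ Real.exp (Real.log 2) := Real.exp_le_exp.mpr h9
      _ = 2 := Real.exp_log (by norm_num)

theorem NI_totcost_nonneg (cost : List η → η → ℝ) (hc0 : ∀ l, ∀ e ∈ H.E, 0 ≤ cost l e) :
    ∀ l : List η, (∀ e ∈ l, e ∈ H.E) → 0 ≤ totcost cost l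
  | [], _ => le_refl _
  | e :: l, h => by
    have h1 := NI_totcost_nonneg cost hc0 l (fun x hx => h x (List.mem_cons_of_mem _ hx))
    have h2 := hc0 l e (h e (List.mem_cons_self))
    show 0 ≤ totcost cost l + cost l e
    linarith

theorem NI_Φ_nonneg (lam : ℝ) {ι : Type*} (I : Finset ι) (f : ι → η → ℝ) (t ε : ℝ)
    (A : Finset η) : 0 ≤ H.Φ lam I f t ε A := by
  unfold NH.Φ
  have h1 : ∀ x : ℝ, 0 ≤ Real.cosh x := fun x => (Real.cosh_pos x).le
  have := Finset.sum_nonneg (s := H.E.biUnion H.inc \ H.cov A)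
    (f := fun v => Real.cosh (lam * ((H.X t A v - H.s v) / ε))) (fun v _ => h1 _)
  have h2 := Finset.sum_nonneg (s := I)
    (f := fun i => Real.cosh (lam * ((H.M t A (f i) - H.M₀ (f i)) / H.n / ε))) (fun v _ => h1 _)
  have h3 := Finset.sum_nonneg (s := I)
    (f := fun i => Real.cosh (lam * ((∑ e ∈ A, f i e - t * H.M₀ (f i)) / H.n / ε)))
    (fun v _ => h1 _)
  linarith

theorem NI_small (lam : ℝ) (J₀ G : ℝ) (hlG : 4 * J₀ * G < Real.exp (lam / 2)) :
    2 * J₀ * Real.exp (lam / 2) * G < Real.cosh lam := by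
  have h0 := Real.exp_pos (lam / 2)
  have h1 : Real.exp lam = Real.exp (lam / 2) * Real.exp (lam / 2) := by
    rw [← Real.exp_add]; congr 1; ring
  have h2 : Real.exp lam / 2 ≤ Real.cosh lam := by
    rw [Real.cosh_eq]
    have := Real.exp_pos (-lam)
    linarith
  have h3 : 2 * J₀ * Real.exp (lam / 2) * G < Real.exp lam / 2 := by
    rw [h1]
    nlinarith
  linarith

/-- The induction: as long as `j ≤ Nst`, there is a list of `j` choices with
`Φ + κ totcost ≤ (1 + (lam hh)²)^j (J₀ exp (lam / 2) + j a)`, `a` the sum of the two last summands of `pot_step`; the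
right side is at most `2 J₀ exp (lam / 2) G < exp lam / 2 ≤ cosh lam`, where
`G = 1 + 6 lam / τ + 5/4 c₀ / τ³` and `κ = J₀ exp (lam / 2)`. -/
theorem nibble_ind (lam : ℝ) (hlam : 1 ≤ lam) {ι : Type*} (I : Finset ι) (f : ι → η → ℝ)
    (hf0 : ∀ j ∈ I, ∀ e, 0 ≤ f j e) (hf1 : ∀ j ∈ I, ∀ e, f j e ≤ 1)
    (i₀ : ι) (hi₀ : i₀ ∈ I) (hf : ∀ e, f i₀ e = 1) (cost : List η → η → ℝ)
    (hc0 : ∀ l, ∀ e ∈ H.E, 0 ≤ cost l e) (c₀ : ℝ) (hc00 : 0 ≤ c₀)
    (hc : ∀ l : List η, (∀ e ∈ l, e ∈ H.E) →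
      l.Pairwise (fun e e' => Disjoint (H.inc e) (H.inc e')) →
      ∑ e ∈ H.al l.toFinset, H.ω e * cost l e ≤ c₀)
    (hn : 600 * lam ^ 2 / (H.τ ^ 4 * H.e₀ ^ 2) ≤ H.n) (J₀ : ℝ)
    (hJ : J₀ = (H.E.biUnion H.inc).card + 2 * I.card) (G : ℝ)
    (hG : G = 1 + 6 * lam / H.τ + 5 / 4 * c₀ / H.τ ^ 3)
    (hlG : 4 * J₀ * G < Real.exp (lam / 2)) (Nst : ℕ) (hN : (Nst : ℝ) ≤ (1 - H.τ) * H.n) :
    ∃ l : List η, l.length = Nst ∧ (∀ e ∈ l, e ∈ H.E) ∧
      l.Pairwise (fun e e' => Disjoint (H.inc e) (H.inc e')) ∧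
      H.Φ lam I f (Nst / H.n) (H.er Nst) l.toFinset +
        J₀ * Real.exp (lam / 2) * totcost cost l ≤ 2 * J₀ * Real.exp (lam / 2) * G := by
  have hn0 := H.n_pos
  have ht := H.τ0
  have ht1 := H.τ1
  have hlam0 : 0 < lam := by linarith
  set hh : ℝ := 7 / (H.n * H.τ ^ 2 * H.e₀) + 96 / (H.n * H.τ) with hhh
  obtain ⟨hlh, hpow⟩ := H.num_hh lam hlam hn hh hhh
  have hJ0 : 0 ≤ J₀ := by rw [hJ]; positivity
  set E : ℝ := Real.exp (lam / 2) with hE
  have hE0 : 0 < E := Real.exp_pos _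
  set κ : ℝ := J₀ * E with hκ
  have hκ0 : 0 ≤ κ := by positivity
  set a : ℝ := J₀ * (6 * lam * E / (H.n * H.τ)) + κ * (5 / 4 * c₀ / (H.n * H.τ ^ 3)) with ha
  have ha0 : 0 ≤ a := by positivity
  set q : ℝ := 1 + (lam * hh) ^ 2 with hq
  have hq1 : 1 ≤ q := by rw [hq]; nlinarith [sq_nonneg (lam * hh)]
  -- the right side
  have hR : ∀ j : ℕ, (j : ℝ) ≤ H.n → q ^ j * (κ + j * a) ≤ 2 * J₀ * E * G := by
    intro j hj
    have h1 : q ^ j ≤ 2 := by
      refine le_trans ?_ hpow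
      exact pow_le_pow_right₀ hq1 (by exact_mod_cast hj)
    have h2 : (j : ℝ) * a ≤ H.n * a := by gcongr
    have h3 : H.n * a = J₀ * E * (6 * lam / H.τ + 5 / 4 * c₀ / H.τ ^ 3) := by
      rw [ha, hκ]
      field_simp
    have h4 : 0 ≤ κ + j * a := by positivity
    calc q ^ j * (κ + j * a) ≤ 2 * (κ + j * a) := by gcongr
      _ ≤ 2 * (κ + H.n * a) := by linarith
      _ = 2 * J₀ * E * G := by rw [h3, hκ, hG]; ring
  have key : ∀ j : ℕ, j ≤ Nst → ∃ l : List η, l.length = j ∧ (∀ e ∈ l, e ∈ H.E) ∧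
      l.Pairwise (fun e e' => Disjoint (H.inc e) (H.inc e')) ∧
      H.Φ lam I f (j / H.n) (H.er j) l.toFinset + κ * totcost cost l ≤
        q ^ j * (κ + j * a) := by
    intro j
    induction j with
    | zero =>
      intro _
      refine ⟨[], rfl, by simp, List.Pairwise.nil, ?_⟩
      have := H.pot_init lam hlam0 I f
      rw [← hJ] at this
      simp only [List.toFinset_nil, totcost, mul_zero, add_zero, pow_zero, one_mul, Nat.cast_zero,
        zero_mul]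
      simpa using this
    | succ j ih =>
      intro hj
      obtain ⟨l, hl1, hl2, hl3, hl4⟩ := ih (by omega)
      have hjN : ((j : ℝ) + 1) ≤ (1 - H.τ) * H.n := by
        have : ((j + 1 : ℕ) : ℝ) ≤ Nst := by exact_mod_cast hj
        push_cast at this
        linarith
      have hj1 : ((j : ℝ) + 1) / H.n ≤ 1 - H.τ := by
        rw [div_le_iff₀ hn0]
        exact hjN
      have hjn : (j : ℝ) ≤ H.n := by
        have : (1 - H.τ) * H.n ≤ 1 * H.n := by gcongr; linarith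
        linarith
      have htc := H.NI_totcost_nonneg cost hc0 l hl2
      have hΦ : H.Φ lam I f (j / H.n) (H.er j) l.toFinset < Real.cosh lam := by
        have h1 := hR j hjn
        have h2 := NI_small lam J₀ G hlG
        have h3 : 0 ≤ κ * totcost cost l := by positivity
        rw [← hE] at h2
        linarith
      obtain ⟨e, he, hst⟩ := H.pot_step lam hlam0 I f hf0 hf1 i₀ hi₀ hf j hj1 l.toFinset hΦ
        (cost l) (hc0 l) c₀ κ hκ0 (hc l hl2 hl3) hh hhh hlh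
      rw [← hJ, ← hE] at hst
      have heE : e ∈ H.E := (Finset.mem_filter.mp he).1
      have hed : Disjoint (H.inc e) (H.cov l.toFinset) := (Finset.mem_filter.mp he).2
      refine ⟨e :: l, by simp [hl1], ?_, ?_, ?_⟩
      · intro x hx
        rcases List.mem_cons.mp hx with rfl | hx
        · exact heE
        · exact hl2 x hx
      · refine List.Pairwise.cons ?_ hl3
        intro e' he'
        refine hed.mono_right ?_
        intro v hv
        exact Finset.mem_biUnion.mpr ⟨e', List.mem_toFinset.mpr he', hv⟩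
      · rw [List.toFinset_cons]
        have htc2 : totcost cost (e :: l) = totcost cost l + cost l e := rfl
        rw [htc2]
        have h5 : κ * totcost cost l ≤ q * (κ * totcost cost l) := by
          have : 0 ≤ κ * totcost cost l := by positivity
          nlinarith
        have h6 : q * (H.Φ lam I f (j / H.n) (H.er j) l.toFinset + κ * totcost cost l) ≤
            q * (q ^ j * (κ + j * a)) := by gcongr
        have h7 : a ≤ q ^ (j + 1) * a := by
          have : 1 ≤ q ^ (j + 1) := one_le_pow₀ hq1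
          nlinarith
        have h8 : q ^ (j + 1) * (κ + ((j + 1 : ℕ) : ℝ) * a) =
            q * (q ^ j * (κ + j * a)) + q ^ (j + 1) * a := by
          push_cast
          ring
        rw [h8]
        have h9 : H.Φ lam I f (j / H.n) (H.er j) l.toFinset * q +
          J₀ * (6 * lam * E / (H.n * H.τ)) + κ * (5 / 4 * c₀ / (H.n * H.τ ^ 3)) =
          q * H.Φ lam I f (j / H.n) (H.er j) l.toFinset + a := by
          rw [ha]; ring
        rw [h9] at hst
        nlinarith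
  obtain ⟨l, hl1, hl2, hl3, hl4⟩ := key Nst (le_refl _)
  refine ⟨l, hl1, hl2, hl3, hl4.trans ?_⟩
  apply hR
  have : (1 - H.τ) * H.n ≤ 1 * H.n := by gcongr; linarith
  linarith

/-- **The nibble theorem.** -/
theorem nibble (lam : ℝ) (hlam : 1 ≤ lam) {ι : Type*} (I : Finset ι) (f : ι → η → ℝ)
    (hf0 : ∀ j ∈ I, ∀ e, 0 ≤ f j e) (hf1 : ∀ j ∈ I, ∀ e, f j e ≤ 1)
    (i₀ : ι) (hi₀ : i₀ ∈ I) (hf : ∀ e, f i₀ e = 1) (cost : List η → η → ℝ)
    (hc0 : ∀ l, ∀ e ∈ H.E, 0 ≤ cost l e) (c₀ : ℝ) (hc00 : 0 ≤ c₀)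
    (hc : ∀ l : List η, (∀ e ∈ l, e ∈ H.E) →
      l.Pairwise (fun e e' => Disjoint (H.inc e) (H.inc e')) →
      ∑ e ∈ H.al l.toFinset, H.ω e * cost l e ≤ c₀)
    (hn : 600 * lam ^ 2 / (H.τ ^ 4 * H.e₀ ^ 2) ≤ H.n) (J₀ : ℝ)
    (hJ : J₀ = (H.E.biUnion H.inc).card + 2 * I.card) (G : ℝ)
    (hG : G = 1 + 6 * lam / H.τ + 5 / 4 * c₀ / H.τ ^ 3)
    (hlG : 4 * J₀ * G < Real.exp (lam / 2)) (Nst : ℕ) (hN : (Nst : ℝ) ≤ (1 - H.τ) * H.n) :
    ∃ l : List η, l.length = Nst ∧ (∀ e ∈ l, e ∈ H.E) ∧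
      l.Pairwise (fun e e' => Disjoint (H.inc e) (H.inc e')) ∧ totcost cost l ≤ 2 * G ∧
      ∀ j ∈ I, |∑ e ∈ l.toFinset, f j e - Nst / H.n * H.M₀ (f j)| ≤ H.e₀ / H.τ ^ 96 * H.n := by
  obtain ⟨l, hl1, hl2, hl3, hl4⟩ := H.nibble_ind lam hlam I f hf0 hf1 i₀ hi₀ hf cost hc0 c₀ hc00
    hc hn J₀ hJ G hG hlG Nst hN
  have hn0 := H.n_pos
  have hlam0 : 0 < lam := by linarith
  have hE0 : 0 < Real.exp (lam / 2) := Real.exp_pos _
  have hJ0 : 0 < J₀ := by
    rw [hJ]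
    have : 0 < I.card := Finset.card_pos.mpr ⟨i₀, hi₀⟩
    positivity
  have htc := H.NI_totcost_nonneg cost hc0 l hl2
  have hΦ0 := H.NI_Φ_nonneg lam I f (Nst / H.n) (H.er Nst) l.toFinset
  have hΦ : H.Φ lam I f (Nst / H.n) (H.er Nst) l.toFinset < Real.cosh lam := by
    have h2 := NI_small lam J₀ G hlG
    have h3 : 0 ≤ J₀ * Real.exp (lam / 2) * totcost cost l := by positivity
    linarith
  have hNn : (Nst : ℝ) / H.n ≤ 1 - H.τ := by
    rw [div_le_iff₀ hn0]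
    exact hN
  refine ⟨l, hl1, hl2, hl3, ?_, ?_⟩
  · have h3 : (J₀ * Real.exp (lam / 2)) * totcost cost l ≤
        (J₀ * Real.exp (lam / 2)) * (2 * G) := by
      calc (J₀ * Real.exp (lam / 2)) * totcost cost l ≤ 2 * J₀ * Real.exp (lam / 2) * G := by
            linarith
        _ = (J₀ * Real.exp (lam / 2)) * (2 * G) := by ring
    exact le_of_mul_le_mul_left h3 (by positivity)
  · intro j hj
    have h4 := H.T_of_Φ lam hlam0 I f Nst hNn l.toFinset hΦ j hj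
    refine h4.trans ?_
    have h5 := (H.er_bounds Nst hNn).2.1
    gcongr

end NH

end Pool.Agent.W_cd7020_h81n
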