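import Pool.Agent.W_cd7020_h81n.NDefs

/-!
# Elementary bounds
-/

set_option autoImplicit false

namespace Pool.Agent.W_cd7020_h81n

open Finset

namespace NH

variable {η N : Type*} [DecidableEq η] [DecidableEq N] (H : NH η N)

include H in
theorem NA_e0 : H.e₀ ≤ 1 / 8 := by
  have h1 : H.τ ^ 96 ≤ 1 := pow_le_one₀ H.τ0.le H.τ1
  linarith [H.e8]

include H in
theorem NA_n1 : 70 ≤ H.n * (H.e₀ * H.τ ^ 3) := by
  have h1 : 0 < H.e₀ * H.τ ^ 3 := mul_pos H.e0 (pow_pos H.τ0 3)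
  exact (div_le_iff₀ h1).1 H.n1

/-- `n ≥ 70 / (e₀ τ³) ≥ 560`. -/
theorem n_pos : (0 : ℝ) < H.n := by
  have h1 : 0 < H.e₀ * H.τ ^ 3 := mul_pos H.e0 (pow_pos H.τ0 3)
  exact (div_pos (by norm_num) h1).trans_le H.n1

/-- `ρ > 0`, `ρ ≤ e₀ τ² / 70`. -/
theorem rho_bounds : 0 < H.ρ ∧ H.ρ ≤ H.e₀ * H.τ ^ 2 / 70 ∧ H.ρ ≤ H.τ / 10 ∧ H.ρ ≤ 1 / 100 ∧
    H.ρ ≤ 1 / 96 := by
  have hn := H.n_pos
  have hτ := H.τ0
  have hτ1 := H.τ1
  have he := H.e0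
  have he8 := H.NA_e0
  have h1 : 0 < H.n * H.τ := mul_pos hn hτ
  have h2 : 0 < H.ρ := by
    unfold NH.ρ
    exact div_pos one_pos h1
  have h3 : H.ρ ≤ H.e₀ * H.τ ^ 2 / 70 := by
    unfold NH.ρ
    rw [div_le_iff₀ h1]
    have := H.NA_n1
    have h4 : H.e₀ * H.τ ^ 2 / 70 * (H.n * H.τ) = H.n * (H.e₀ * H.τ ^ 3) / 70 := by ring
    rw [h4]
    linarith
  have h5 : H.e₀ * H.τ ^ 2 ≤ 1 / 8 * H.τ := by
    have h6 : H.τ ^ 2 ≤ H.τ := by nlinarith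
    calc H.e₀ * H.τ ^ 2 ≤ H.e₀ * H.τ := mul_le_mul_of_nonneg_left h6 he.le
      _ ≤ 1 / 8 * H.τ := mul_le_mul_of_nonneg_right he8 hτ.le
  refine ⟨h2, h3, ?_, ?_, ?_⟩ <;> linarith

/-- For `0 ≤ t ≤ 1 - τ`: `τ ≤ 1 - t ≤ 1 - t s v ≤ 1`. -/
theorem sig_bounds (t : ℝ) (h0 : 0 ≤ t) (h1 : t ≤ 1 - H.τ) (v : N) :
    H.τ ≤ 1 - t ∧ 1 - t ≤ 1 - t * H.s v ∧ 1 - t * H.s v ≤ 1 := by
  have hs0 := H.s0 v
  have hs1 := H.s1 v
  refine ⟨by linarith, ?_, ?_⟩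
  · nlinarith
  · nlinarith [mul_nonneg h0 hs0]

theorem NA_prod {t : ℝ} (h0 : 0 ≤ t) (h1 : t ≤ 1 - H.τ) (S : Finset N) (m : ℕ)
    (hS : S.card ≤ m) : H.τ ^ m ≤ ∏ v ∈ S, (1 - t * H.s v) := by
  have h2 : H.τ ^ S.card ≤ ∏ v ∈ S, (1 - t * H.s v) := by
    rw [← Finset.prod_const]
    refine Finset.prod_le_prod (fun _ _ => H.τ0.le) fun v _ => ?_
    obtain ⟨h3, h4, _⟩ := H.sig_bounds t h0 h1 v
    linarith
  exact (pow_le_pow_of_le_one H.τ0.le H.τ1 hS).trans h2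

theorem NA_pos {t : ℝ} (h0 : 0 ≤ t) (h1 : t ≤ 1 - H.τ) (v : N) : 0 < 1 - t * H.s v := by
  obtain ⟨h3, h4, _⟩ := H.sig_bounds t h0 h1 v
  linarith [H.τ0]

theorem NA_prodpos {t : ℝ} (h0 : 0 ≤ t) (h1 : t ≤ 1 - H.τ) (S : Finset N) :
    0 < ∏ v ∈ S, (1 - t * H.s v) := Finset.prod_pos fun v _ => H.NA_pos h0 h1 v

theorem NA_t {t : ℝ} (h0 : 0 ≤ t) : 0 ≤ t + 1 / H.n := by
  have := H.n_pos
  positivity

theorem NA_t' {t : ℝ} (h1 : t + 1 / H.n ≤ 1 - H.τ) : t ≤ 1 - H.τ := by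
  have h2 : 0 < 1 / (H.n : ℝ) := div_pos one_pos H.n_pos
  linarith

/-- `0 ≤ w t e ≤ 2 ρ / (τ²)`: at most three factors, each at least `τ`; `2 / n / τ³ = 2 ρ / τ²`. -/
theorem w_bounds (t : ℝ) (h0 : 0 ≤ t) (h1 : t ≤ 1 - H.τ) (e : η) (he : e ∈ H.E) :
    0 ≤ H.w t e ∧ H.w t e ≤ 2 * H.ρ / H.τ ^ 2 := by
  have hn := H.n_pos
  have hτ := H.τ0
  have h2 := H.NA_prod h0 h1 (H.inc e) 3 (H.inc3 e he)
  have h3 := H.NA_prodpos h0 h1 (H.inc e)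
  have h4 := H.ω0 e he
  have h5 := H.ω2 e he
  have h6 : 0 < H.τ ^ 3 := pow_pos hτ 3
  unfold NH.w
  refine ⟨div_nonneg h4 h3.le, ?_⟩
  calc H.ω e / ∏ v ∈ H.inc e, (1 - t * H.s v) ≤ (2 / H.n) / H.τ ^ 3 :=
        div_le_div₀ (by positivity) h5 h6 h2
    _ = 2 * H.ρ / H.τ ^ 2 := by
        unfold NH.ρ
        field_simp

/-- `0 ≤ r t v ≤ ρ` for `0 ≤ t`, `t + 1/n ≤ 1 - τ`. -/
theorem r_bounds (t : ℝ) (h0 : 0 ≤ t) (h1 : t + 1 / H.n ≤ 1 - H.τ) (v : N) :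
    0 ≤ H.r t v ∧ H.r t v ≤ H.ρ := by
  have hn := H.n_pos
  have hτ := H.τ0
  have h2 := H.sig_bounds (t + 1 / H.n) (H.NA_t h0) h1 v
  obtain ⟨h3, h4, h5⟩ := h2
  have h6 : H.τ ≤ 1 - (t + 1 / H.n) * H.s v := h3.trans h4
  have hs0 := H.s0 v
  have hs1 := H.s1 v
  unfold NH.r
  refine ⟨div_nonneg (div_nonneg hs0 hn.le) (hτ.le.trans h6), ?_⟩
  calc H.s v / H.n / (1 - (t + 1 / H.n) * H.s v) ≤ (1 / H.n) / H.τ :=
        div_le_div₀ (by positivity) (div_le_div_of_nonneg_right hs1 hn.le) hτ h6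
    _ = H.ρ := by
        unfold NH.ρ
        rw [div_div]

/-- `(1 - t s v) / (1 - t' s v) = 1 + r t v` for `t' = t + 1/n`. -/
theorem sig_step (t : ℝ) (h0 : 0 ≤ t) (h1 : t + 1 / H.n ≤ 1 - H.τ) (v : N) :
    (1 - t * H.s v) = (1 - (t + 1 / H.n) * H.s v) * (1 + H.r t v) := by
  have hp := H.NA_pos (H.NA_t h0) h1 v
  have hn := H.n_pos
  unfold NH.r
  rw [mul_add, mul_one, mul_div_cancel₀ _ hp.ne']
  ring

/-- The weights after one step (`sig_step`). -/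
theorem w_step (t : ℝ) (h0 : 0 ≤ t) (h1 : t + 1 / H.n ≤ 1 - H.τ) (e : η) :
    H.w (t + 1 / H.n) e = H.w t e * ∏ v ∈ H.inc e, (1 + H.r t v) := by
  have h2 : ∏ v ∈ H.inc e, (1 - t * H.s v) =
      (∏ v ∈ H.inc e, (1 - (t + 1 / H.n) * H.s v)) * ∏ v ∈ H.inc e, (1 + H.r t v) := by
    rw [← Finset.prod_mul_distrib]
    exact Finset.prod_congr rfl fun v _ => H.sig_step t h0 h1 v
  have h3 := H.NA_prodpos (H.NA_t h0) h1 (H.inc e)
  have h4 : 0 < ∏ v ∈ H.inc e, (1 + H.r t v) := Finset.prod_pos fun v _ => by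
    have := (H.r_bounds t h0 h1 v).1
    linarith
  unfold NH.w
  rw [h2]
  field_simp

/-- `(1 - t' s v) w t' e = (1 - t s v) w t e ∏ u ∈ inc e \ {v}, (1 + r t u)` for `v ∈ inc e`. -/
theorem w_step' (t : ℝ) (h0 : 0 ≤ t) (h1 : t + 1 / H.n ≤ 1 - H.τ) (e : η) (v : N)
    (hv : v ∈ H.inc e) :
    (1 - (t + 1 / H.n) * H.s v) * H.w (t + 1 / H.n) e =
      (1 - t * H.s v) * H.w t e * ∏ u ∈ (H.inc e).erase v, (1 + H.r t u) := by
  rw [H.w_step t h0 h1 e, ← Finset.mul_prod_erase _ _ hv, H.sig_step t h0 h1 v]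
  ring

/-- `(1 - t s v) w t e ≤ 2 / (n τ²)` for `v ∈ inc e`: at most two other factors. -/
theorem w_bound' (t : ℝ) (h0 : 0 ≤ t) (h1 : t ≤ 1 - H.τ) (e : η) (he : e ∈ H.E) (v : N)
    (hv : v ∈ H.inc e) : (1 - t * H.s v) * H.w t e ≤ 2 / (H.n * H.τ ^ 2) := by
  have hn := H.n_pos
  have hτ := H.τ0
  have hp := H.NA_pos h0 h1 v
  have hc : ((H.inc e).erase v).card ≤ 2 := by
    rw [Finset.card_erase_of_mem hv]
    have := H.inc3 e he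
    omega
  have h2 := H.NA_prod h0 h1 ((H.inc e).erase v) 2 hc
  have h3 := H.NA_prodpos h0 h1 ((H.inc e).erase v)
  have h4 := H.ω0 e he
  have h5 := H.ω2 e he
  have h6 : 0 < H.τ ^ 2 := pow_pos hτ 2
  have h7 : (1 - t * H.s v) * H.w t e = H.ω e / ∏ u ∈ (H.inc e).erase v, (1 - t * H.s u) := by
    unfold NH.w
    rw [← Finset.mul_prod_erase _ _ hv]
    field_simp
  rw [h7]
  calc H.ω e / ∏ u ∈ (H.inc e).erase v, (1 - t * H.s u) ≤ (2 / H.n) / H.τ ^ 2 :=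
        div_le_div₀ (by positivity) h5 h6 h2
    _ = 2 / (H.n * H.τ ^ 2) := by rw [div_div]

/-- `1 + ∑ r ≤ ∏ (1 + r) ≤ 1 + ∑ r + 4 ρ²` for at most three numbers `0 ≤ r ≤ ρ ≤ 1/100`. -/
theorem prod_bounds {α : Type*} (S : Finset α) (hS : S.card ≤ 3) (x : α → ℝ) (ρ : ℝ)
    (h0 : ∀ a ∈ S, 0 ≤ x a) (h1 : ∀ a ∈ S, x a ≤ ρ) (hρ : ρ ≤ 1 / 100) :
    1 + ∑ a ∈ S, x a ≤ ∏ a ∈ S, (1 + x a) ∧
      ∏ a ∈ S, (1 + x a) ≤ 1 + ∑ a ∈ S, x a + 4 * ρ ^ 2 := by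
  classical
  have hcase : S.card = 0 ∨ S.card = 1 ∨ S.card = 2 ∨ S.card = 3 := by omega
  rcases hcase with h | h | h | h
  · rw [Finset.card_eq_zero] at h
    subst h
    simp
    positivity
  · obtain ⟨a, rfl⟩ := Finset.card_eq_one.1 h
    simp only [Finset.sum_singleton, Finset.prod_singleton]
    constructor
    · exact le_rfl
    · nlinarith [sq_nonneg ρ]
  · obtain ⟨a, b, hab, rfl⟩ := Finset.card_eq_two.1 h
    rw [Finset.sum_pair hab, Finset.prod_pair hab]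
    have a0 := h0 a (by simp)
    have b0 := h0 b (by simp)
    have a1 := h1 a (by simp)
    have b1 := h1 b (by simp)
    have hab0 := mul_nonneg a0 b0
    have hab1 : x a * x b ≤ ρ * ρ := mul_le_mul a1 b1 b0 (a0.trans a1)
    constructor
    · nlinarith
    · nlinarith [sq_nonneg ρ]
  · obtain ⟨a, b, c, hab, hac, hbc, rfl⟩ := Finset.card_eq_three.1 h
    have a0 := h0 a (by simp)
    have b0 := h0 b (by simp)
    have c0 := h0 c (by simp)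
    have a1 := h1 a (by simp)
    have b1 := h1 b (by simp)
    have c1 := h1 c (by simp)
    have e1 : ∑ z ∈ ({a, b, c} : Finset α), x z = x a + x b + x c := by
      rw [Finset.sum_insert (by simp [hab, hac]), Finset.sum_pair hbc]
      ring
    have e2 : ∏ z ∈ ({a, b, c} : Finset α), (1 + x z) =
        1 + (x a + x b + x c) + (x a * x b + x a * x c + x b * x c) + x a * x b * x c := by
      rw [Finset.prod_insert (by simp [hab, hac]), Finset.prod_pair hbc]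
      ring
    rw [e1, e2]
    have r0 : 0 ≤ ρ := a0.trans a1
    have hab0 := mul_nonneg a0 b0
    have hac0 := mul_nonneg a0 c0
    have hbc0 := mul_nonneg b0 c0
    have habc0 := mul_nonneg hab0 c0
    have hab1 : x a * x b ≤ ρ * ρ := mul_le_mul a1 b1 b0 r0
    have hac1 : x a * x c ≤ ρ * ρ := mul_le_mul a1 c1 c0 r0
    have hbc1 : x b * x c ≤ ρ * ρ := mul_le_mul b1 c1 c0 r0
    have habc1 : x a * x b * x c ≤ ρ * ρ * 1 :=
      mul_le_mul hab1 (by linarith) c0 (mul_nonneg r0 r0)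
    constructor
    · linarith
    · nlinarith

theorem al_insert (A : Finset η) (e e' : η) :
    e' ∈ H.al (insert e A) ↔ e' ∈ H.al A ∧ Disjoint (H.inc e') (H.inc e) := by
  unfold NH.al NH.cov
  rw [Finset.mem_filter, Finset.mem_filter, Finset.biUnion_insert, Finset.disjoint_union_right]
  tauto

theorem cov_insert (A : Finset η) (e : η) : H.cov (insert e A) = H.cov A ∪ H.inc e := by
  unfold NH.cov
  rw [Finset.biUnion_insert, Finset.union_comm]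

end NH

end Pool.Agent.W_cd7020_h81n
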