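import Pool.Agent.W_cd7020_h81n.NA

/-!
# The probabilities of one step
-/

set_option autoImplicit false

namespace Pool.Agent.W_cd7020_h81n

open Finset

namespace NH

variable {η N : Type*} [DecidableEq η] [DecidableEq N] (H : NH η N)

/-- `4/5 n ≤ Z ≤ 6/5 n`. -/
theorem Z_bounds (t ε : ℝ) (A : Finset η) (h : H.St t ε A) :
    4 / 5 * H.n ≤ H.Z t A ∧ H.Z t A ≤ 6 / 5 * H.n := by
  have hn := H.n_pos
  have h1 := abs_le.1 h.hZ
  have h2 : 3 / 2 * ε * H.n ≤ 3 / 16 * H.n := by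
    have := h.ε8
    nlinarith
  constructor <;> linarith [h1.1, h1.2]

theorem NB_Zpos {t ε : ℝ} {A : Finset η} (h : H.St t ε A) : 0 < H.Z t A := by
  have hn := H.n_pos
  have := (H.Z_bounds t ε A h).1
  linarith

theorem NB_Z (t : ℝ) (A : Finset η) : H.Z t A = ∑ e ∈ H.al A, H.w t e := by
  unfold NH.Z NH.M
  exact Finset.sum_congr rfl fun e _ => one_mul _

theorem NB_al {A : Finset η} {e : η} (he : e ∈ H.al A) : e ∈ H.E := (Finset.mem_filter.1 he).1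

theorem NB_w0 {t ε : ℝ} {A : Finset η} (h : H.St t ε A) {e : η} (he : e ∈ H.al A) :
    0 ≤ H.w t e := (H.w_bounds t h.t0 (H.NA_t' h.t1) e (H.NB_al he)).1

theorem p_sum (t ε : ℝ) (A : Finset η) (h : H.St t ε A) : ∑ e ∈ H.al A, H.p t A e = 1 := by
  have hZ := H.NB_Zpos h
  unfold NH.p
  rw [← Finset.sum_div, ← H.NB_Z]
  exact div_self hZ.ne'

/-- `w / Z ≤ (2 ρ / τ²) / (4/5 n) = (5/2) ρ² / τ`. -/
theorem p_bounds (t ε : ℝ) (A : Finset η) (h : H.St t ε A) (e : η) (he : e ∈ H.al A) :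
    0 ≤ H.p t A e ∧ H.p t A e ≤ 5 / 2 * H.ρ ^ 2 / H.τ := by
  have hn := H.n_pos
  have hτ := H.τ0
  have hZ := H.NB_Zpos h
  have hZ1 := (H.Z_bounds t ε A h).1
  obtain ⟨h1, h2⟩ := H.w_bounds t h.t0 (H.NA_t' h.t1) e (H.NB_al he)
  unfold NH.p
  refine ⟨div_nonneg h1 hZ.le, ?_⟩
  calc H.w t e / H.Z t A ≤ (2 * H.ρ / H.τ ^ 2) / (4 / 5 * H.n) :=
        div_le_div₀ (h1.trans h2) h2 (by positivity) hZ1
    _ = 5 / 2 * H.ρ ^ 2 / H.τ := by
        unfold NH.ρ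
        field_simp
        norm_num

/-- `M f ≤ Z` for `0 ≤ f ≤ 1`. -/
theorem M_bounds (t ε : ℝ) (A : Finset η) (h : H.St t ε A) (f : η → ℝ) (hf0 : ∀ e, 0 ≤ f e)
    (hf1 : ∀ e, f e ≤ 1) : 0 ≤ H.M t A f ∧ H.M t A f ≤ 6 / 5 * H.n := by
  have hZ2 := (H.Z_bounds t ε A h).2
  unfold NH.M
  refine ⟨Finset.sum_nonneg fun e he => mul_nonneg (hf0 e) (H.NB_w0 h he), ?_⟩
  refine le_trans (Finset.sum_le_sum fun e he => ?_) ((H.NB_Z t A).symm.le.trans hZ2)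
  calc f e * H.w t e ≤ 1 * H.w t e := mul_le_mul_of_nonneg_right (hf1 e) (H.NB_w0 h he)
    _ = H.w t e := one_mul _

/-- For uncovered `v`: `P v = X v / ((1 - t s v) Z)`. -/
theorem P_eq (t ε : ℝ) (A : Finset η) (h : H.St t ε A) (v : N) :
    H.P t A v = H.X t A v / ((1 - t * H.s v) * H.Z t A) := by
  have hZ := H.NB_Zpos h
  have hσ := H.NA_pos h.t0 (H.NA_t' h.t1) v
  unfold NH.P NH.p NH.X
  rw [← Finset.sum_div]
  field_simp

/-- `|P v - r v| ≤ (16/5) ε / (n (1 - t)) + ρ²` for uncovered `v`. Indeed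
`|X v / Z - s v / n| ≤ |X v - s v| / Z + s v |1/Z - 1/n| ≤ ε / (4/5 n) + (3/2) ε / (4/5 n) ≤ (16/5) ε / n`, divide by
`1 - t s v ≥ 1 - t`; and `|s v / (n (1 - t s v)) - r v| = (s v / n)² / ((1 - t s v) (1 - t' s v)) ≤ ρ²`. -/
theorem P_near (t ε : ℝ) (A : Finset η) (h : H.St t ε A) (v : N)
    (hv : v ∈ H.E.biUnion H.inc) (hv' : v ∉ H.cov A) :
    |H.P t A v - H.r t v| ≤ 16 / 5 * ε / (H.n * (1 - t)) + H.ρ ^ 2 := by
  have hn := H.n_pos
  have hτ := H.τ0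
  have hZ := H.NB_Zpos h
  obtain ⟨hZ1, hZ2⟩ := H.Z_bounds t ε A h
  obtain ⟨a1, a2, a3⟩ := H.sig_bounds t h.t0 (H.NA_t' h.t1) v
  obtain ⟨b1, b2, b3⟩ := H.sig_bounds (t + 1 / H.n) (H.NA_t h.t0) h.t1 v
  have hX := h.hX v hv hv'
  have hZn := h.hZ
  have hs0 := H.s0 v
  have hs1 := H.s1 v
  have hε : 0 ≤ ε := H.e0.le.trans h.ε0
  rw [H.P_eq t ε A h v]
  unfold NH.r
  obtain ⟨x, hx⟩ : ∃ x, x = H.X t A v := ⟨_, rfl⟩
  obtain ⟨s, hs⟩ : ∃ s, s = H.s v := ⟨_, rfl⟩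
  obtain ⟨Z, hZd⟩ : ∃ Z, Z = H.Z t A := ⟨_, rfl⟩
  obtain ⟨m, hm⟩ : ∃ m : ℝ, m = (H.n : ℝ) := ⟨_, rfl⟩
  obtain ⟨σ, hσ⟩ : ∃ σ, σ = 1 - t * H.s v := ⟨_, rfl⟩
  obtain ⟨σ', hσ'⟩ : ∃ σ', σ' = 1 - (t + 1 / H.n) * H.s v := ⟨_, rfl⟩
  have hd : σ - σ' = s / m := by
    rw [hσ, hσ', hs, hm]
    ring
  rw [← hσ] at a2
  rw [← hσ'] at b2
  rw [← hx, ← hs] at hX
  rw [← hZd, ← hm] at hZn
  rw [← hZd, ← hm] at hZ1
  rw [← hZd] at hZ
  rw [← hm] at hn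
  rw [← hs] at hs0 hs1
  rw [← hx, ← hσ, ← hs, ← hZd, ← hm]
  have e0 : 1 - (t + 1 / m) * s = σ' := by
    rw [hσ', hs, hm]
  rw [e0]
  have c1 : 0 < 1 - t := by linarith
  have hσp : 0 < σ := by linarith
  have hσp' : 0 < σ' := by linarith
  -- first part
  have d1 : |x / Z - s / m| ≤ 16 / 5 * ε / m := by
    have f1 : x / Z - s / m = (x - s) / Z + s * ((m - Z) / (Z * m)) := by
      field_simp
      ring
    have f2 : |(x - s) / Z| ≤ ε / (4 / 5 * m) := by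
      rw [abs_div, abs_of_pos hZ]
      exact div_le_div₀ hε hX (by positivity) hZ1
    have f3 : |s * ((m - Z) / (Z * m))| ≤ 3 / 2 * ε * m / (4 / 5 * m * m) := by
      rw [abs_mul, abs_of_nonneg hs0, abs_div, abs_of_pos (mul_pos hZ hn), abs_sub_comm]
      have f4 : |Z - m| / (Z * m) ≤ 3 / 2 * ε * m / (4 / 5 * m * m) :=
        div_le_div₀ (by positivity) hZn (by positivity) (mul_le_mul_of_nonneg_right hZ1 hn.le)
      have f5 : 0 ≤ |Z - m| / (Z * m) := by positivity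
      calc s * (|Z - m| / (Z * m)) ≤ 1 * (|Z - m| / (Z * m)) :=
            mul_le_mul_of_nonneg_right hs1 f5
        _ ≤ _ := by rw [one_mul]; exact f4
    rw [f1]
    refine (abs_add_le _ _).trans ((add_le_add f2 f3).trans ?_)
    have f6 : ε / (4 / 5 * m) + 3 / 2 * ε * m / (4 / 5 * m * m) = 25 / 8 * (ε / m) := by
      field_simp
      ring
    have f7 : 16 / 5 * ε / m = 16 / 5 * (ε / m) := by ring
    rw [f6, f7]
    have f8 : 0 ≤ ε / m := div_nonneg hε hn.le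
    linarith
  have d2 : |x / (σ * Z) - s / m / σ| ≤ 16 / 5 * ε / (m * (1 - t)) := by
    have f1 : x / (σ * Z) - s / m / σ = (x / Z - s / m) / σ := by
      field_simp
    rw [f1, abs_div, abs_of_pos hσp]
    calc |x / Z - s / m| / σ ≤ (16 / 5 * ε / m) / (1 - t) :=
          div_le_div₀ (by positivity) d1 c1 (by linarith)
      _ = 16 / 5 * ε / (m * (1 - t)) := by rw [div_div]
  have d3 : |s / m / σ - s / m / σ'| ≤ H.ρ ^ 2 := by
    have f1 : s / m / σ - s / m / σ' = -((s / m) * (s / m) / (σ * σ')) := by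
      have f2 : s / m / σ - s / m / σ' = -((s / m) * (σ - σ') / (σ * σ')) := by
        field_simp
        ring
      rw [f2, hd]
    rw [f1, abs_neg, abs_of_nonneg (by positivity)]
    have f3 : s / m ≤ 1 / m := div_le_div_of_nonneg_right hs1 hn.le
    have f4 : s / m * (s / m) ≤ 1 / m * (1 / m) :=
      mul_le_mul f3 f3 (div_nonneg hs0 hn.le) (by positivity)
    have f5 : H.τ * H.τ ≤ σ * σ' := mul_le_mul (by linarith) (by linarith) hτ.le hσp.le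
    calc s / m * (s / m) / (σ * σ') ≤ (1 / m * (1 / m)) / (H.τ * H.τ) :=
          div_le_div₀ (by positivity) f4 (by positivity) f5
      _ = H.ρ ^ 2 := by
          unfold NH.ρ
          rw [← hm]
          field_simp
  calc |x / (σ * Z) - s / m / σ'| = |(x / (σ * Z) - s / m / σ) + (s / m / σ - s / m / σ')| := by
        congr 1
        ring
    _ ≤ _ := (abs_add_le _ _).trans (add_le_add d2 d3)

/-- `0 ≤ P v ≤ (3/2) ρ`: `r v ≤ ρ`, `(16/5) (1/8) / (n (1 - t)) ≤ (2/5) ρ`, `ρ² ≤ ρ / 100`. -/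
theorem P_bounds (t ε : ℝ) (A : Finset η) (h : H.St t ε A) (v : N)
    (hv : v ∈ H.E.biUnion H.inc) (hv' : v ∉ H.cov A) :
    0 ≤ H.P t A v ∧ H.P t A v ≤ 3 / 2 * H.ρ := by
  have hn := H.n_pos
  have hτ := H.τ0
  have hZ := H.NB_Zpos h
  obtain ⟨g1, _, _, g4, _⟩ := H.rho_bounds
  obtain ⟨r0, r1⟩ := H.r_bounds t h.t0 h.t1 v
  obtain ⟨a1, a2, a3⟩ := H.sig_bounds t h.t0 (H.NA_t' h.t1) v
  constructor
  · unfold NH.P
    exact Finset.sum_nonneg fun e he => (H.p_bounds t ε A h e (Finset.mem_filter.1 he).1).1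
  · have h1 := (abs_le.1 (H.P_near t ε A h v hv hv')).2
    have h2 : 16 / 5 * ε / (H.n * (1 - t)) ≤ 2 / 5 * H.ρ := by
      have h3 : 2 / 5 * H.ρ = (2 / 5) / (H.n * H.τ) := by
        unfold NH.ρ
        ring
      rw [h3]
      have h4 := h.ε8
      exact div_le_div₀ (by norm_num) (by linarith) (mul_pos hn hτ)
        (mul_le_mul_of_nonneg_left a1 hn.le)
    have h5 : H.ρ ^ 2 ≤ 1 / 100 * H.ρ := by nlinarith
    linarith

end NH

end Pool.Agent.W_cd7020_h81n
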