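import Mathlib

/-!
# The potential of one variable
-/

set_option autoImplicit false

namespace Pool.Agent.W_cd7020_h81n

open Finset

/-- `cosh h ≤ 1 + (3/5) h²` for `|h| ≤ 1`. -/
theorem NCosh_cosh (h : ℝ) (hh : |h| ≤ 1) : Real.cosh h ≤ 1 + 3 / 5 * h ^ 2 := by
  have h1 := Real.exp_bound (x := h) hh (n := 4) (by norm_num)
  have h2 := Real.exp_bound (x := -h) (by rwa [abs_neg]) (n := 4) (by norm_num)
  rw [abs_le] at h1 h2
  simp only [Finset.sum_range_succ, Finset.sum_range_zero, Nat.factorial] at h1 h2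
  rw [abs_neg] at h2
  have h3 : |h| ^ 4 = h ^ 4 := by
    rw [← abs_pow, abs_of_nonneg (by positivity)]
  rw [h3] at h1 h2
  norm_num at h1 h2
  obtain ⟨-, h1⟩ := h1
  obtain ⟨-, h2⟩ := h2
  rw [Real.cosh_eq]
  have h4 : h ^ 2 ≤ 1 := by
    rw [← sq_abs]
    have := abs_nonneg h
    nlinarith
  have h5 : h ^ 4 ≤ h ^ 2 := by
    have : h ^ 4 = h ^ 2 * h ^ 2 := by ring
    nlinarith [sq_nonneg h]
  nlinarith

/-- `|sinh h - h| ≤ (2/5) h²` for `|h| ≤ 1`. -/
theorem NCosh_sinh (h : ℝ) (hh : |h| ≤ 1) : |Real.sinh h - h| ≤ 2 / 5 * h ^ 2 := by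
  have h1 := Real.exp_bound (x := h) hh (n := 4) (by norm_num)
  have h2 := Real.exp_bound (x := -h) (by rwa [abs_neg]) (n := 4) (by norm_num)
  rw [abs_le] at h1 h2
  simp only [Finset.sum_range_succ, Finset.sum_range_zero, Nat.factorial] at h1 h2
  rw [abs_neg] at h2
  have h3 : |h| ^ 4 = h ^ 4 := by
    rw [← abs_pow, abs_of_nonneg (by positivity)]
  rw [h3] at h1 h2
  norm_num at h1 h2
  obtain ⟨h1a, h1b⟩ := h1
  obtain ⟨h2a, h2b⟩ := h2
  have h4 : h ^ 2 ≤ 1 := by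
    rw [← sq_abs]
    have := abs_nonneg h
    nlinarith
  have h5 : h ^ 4 ≤ h ^ 2 := by
    have : h ^ 4 = h ^ 2 * h ^ 2 := by ring
    nlinarith [sq_nonneg h]
  obtain ⟨h6, h7⟩ := abs_le.1 hh
  have h8 : h ^ 3 ≤ h ^ 2 := by nlinarith [sq_nonneg h]
  have h9 : -h ^ 2 ≤ h ^ 3 := by nlinarith [sq_nonneg h]
  rw [Real.sinh_eq, abs_le]
  constructor
  · linarith
  · linarith

/-- `cosh (a + h) ≤ cosh a + h sinh a + h² cosh a` for `|h| ≤ 1`:
`cosh (a + h) = cosh a cosh h + sinh a sinh h`, `cosh h ≤ 1 + (3/5) h²`, `|sinh h - h| ≤ |h|³ / 5 ≤ (2/5) h²`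
... (`cosh h - 1 + |sinh h - h| ≤ h²` for `|h| ≤ 1`, `|sinh a| ≤ cosh a`). -/
theorem cosh_add_le (a h : ℝ) (hh : |h| ≤ 1) :
    Real.cosh (a + h) ≤ Real.cosh a + h * Real.sinh a + h ^ 2 * Real.cosh a := by
  have h1 := NCosh_cosh h hh
  have h2 := NCosh_sinh h hh
  have h3 : |Real.sinh a| ≤ Real.cosh a := by
    rw [Real.abs_sinh]
    exact (Real.sinh_lt_cosh _).le.trans (by rw [Real.cosh_abs])
  have h4 : 0 < Real.cosh a := Real.cosh_pos a
  rw [Real.cosh_add]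
  have h5 : Real.cosh a * Real.cosh h ≤ Real.cosh a * (1 + 3 / 5 * h ^ 2) :=
    mul_le_mul_of_nonneg_left h1 h4.le
  have h6 : Real.sinh a * (Real.sinh h - h) ≤ Real.cosh a * (2 / 5 * h ^ 2) := by
    calc Real.sinh a * (Real.sinh h - h) ≤ |Real.sinh a * (Real.sinh h - h)| := le_abs_self _
      _ = |Real.sinh a| * |Real.sinh h - h| := abs_mul _ _
      _ ≤ Real.cosh a * (2 / 5 * h ^ 2) := mul_le_mul h3 h2 (abs_nonneg _) h4.le
  nlinarith

/-- One variable `D` with new values `D' u`, `u ∈ S` (probabilities `p u`, total between `1/2` and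
`1`), `y = D / ε`, `y' = D' / ε'`, `g = 1 - ε / ε'` between `48 x` and `96 x`. Then
`y' - y = (D' - D) / ε' - y g`, `|y' - y| ≤ b / ε + 96 x`. By `cosh_add_le` the sum is at most
`cosh (lam y) (1 + (lam (b / ε + 96 x))²) + lam sinh (lam y) (∑ p (D' - D) / ε' - (∑ p) y g)`, and
`sinh (lam y) (...) ≤ sinh (lam |y|) x (12 - 24 |y|)`, which is `≤ 0` for `|y| ≥ 1/2` and at most
`12 x sinh (lam / 2) ≤ 6 x exp (lam / 2)` otherwise. -/
theorem pot_one {σ : Type*} (S : Finset σ) (p : σ → ℝ) (hp0 : ∀ u ∈ S, 0 ≤ p u)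
    (hp1 : ∑ u ∈ S, p u ≤ 1) (hp2 : 1 / 2 ≤ ∑ u ∈ S, p u) (D : ℝ) (D' : σ → ℝ)
    (ε ε' b x lam : ℝ) (hb : ∀ u ∈ S, |D' u - D| ≤ b)
    (hdr : |∑ u ∈ S, p u * (D' u - D)| ≤ 12 * ε * x) (hε : 0 < ε) (hε' : ε ≤ ε')
    (hg1 : 48 * x ≤ 1 - ε / ε') (hg2 : 1 - ε / ε' ≤ 96 * x) (hD : |D| ≤ ε) (hlam : 0 < lam)
    (hx : 0 ≤ x) (hlb : lam * (b / ε + 96 * x) ≤ 1) :
    ∑ u ∈ S, p u * Real.cosh (lam * (D' u / ε')) ≤
      Real.cosh (lam * (D / ε)) * (1 + (lam * (b / ε + 96 * x)) ^ 2) +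
        6 * lam * Real.exp (lam / 2) * x := by
  have hε'0 : 0 < ε' := hε.trans_le hε'
  set y : ℝ := D / ε with hy
  set g : ℝ := 1 - ε / ε' with hg
  set B : ℝ := b / ε + 96 * x with hB
  set P : ℝ := ∑ u ∈ S, p u with hP
  have hy1 : |y| ≤ 1 := by
    rw [hy, abs_div, abs_of_pos hε, div_le_one hε]
    exact hD
  have hg0 : 0 ≤ g := by linarith [mul_nonneg (show (0 : ℝ) ≤ 48 by norm_num) hx]
  have hdiff : ∀ u, D' u / ε' - y = (D' u - D) / ε' - y * g := by
    intro u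
    rw [hy, hg]
    field_simp
    ring
  have hstep : ∀ u ∈ S, |D' u / ε' - y| ≤ B := by
    intro u hu
    rw [hdiff]
    have h1 : |(D' u - D) / ε'| ≤ b / ε := by
      rw [abs_div, abs_of_pos hε'0]
      have hb0 : 0 ≤ b := (abs_nonneg _).trans (hb u hu)
      calc |D' u - D| / ε' ≤ b / ε' := div_le_div_of_nonneg_right (hb u hu) hε'0.le
        _ ≤ b / ε := div_le_div_of_nonneg_left hb0 hε hε'
    have h2 : |y * g| ≤ 96 * x := by
      rw [abs_mul, abs_of_nonneg hg0]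
      calc |y| * g ≤ 1 * g := mul_le_mul_of_nonneg_right hy1 hg0
        _ ≤ 96 * x := by linarith
    calc |(D' u - D) / ε' - y * g| ≤ |(D' u - D) / ε'| + |y * g| := abs_sub _ _
      _ ≤ B := by linarith
  have hcosh : 0 < Real.cosh (lam * y) := Real.cosh_pos _
  have hone : ∀ u ∈ S, p u * Real.cosh (lam * (D' u / ε')) ≤
      p u * (Real.cosh (lam * y) * (1 + (lam * B) ^ 2)) +
        lam * Real.sinh (lam * y) * (p u * (D' u / ε' - y)) := by
    intro u hu
    have h1 := hstep u hu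
    have h2 : |lam * (D' u / ε' - y)| ≤ lam * B := by
      rw [abs_mul, abs_of_pos hlam]
      exact mul_le_mul_of_nonneg_left h1 hlam.le
    have h3 := cosh_add_le (lam * y) (lam * (D' u / ε' - y)) (h2.trans hlb)
    have h4 : lam * y + lam * (D' u / ε' - y) = lam * (D' u / ε') := by ring
    rw [h4] at h3
    have h5 : (lam * (D' u / ε' - y)) ^ 2 ≤ (lam * B) ^ 2 := by
      rw [← sq_abs]
      exact pow_le_pow_left₀ (abs_nonneg _) h2 2
    have h6 := mul_le_mul_of_nonneg_right h5 hcosh.le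
    have h7 : Real.cosh (lam * (D' u / ε')) ≤ Real.cosh (lam * y) * (1 + (lam * B) ^ 2) +
        lam * (D' u / ε' - y) * Real.sinh (lam * y) := by linarith
    have h8 := mul_le_mul_of_nonneg_left h7 (hp0 u hu)
    refine h8.trans (le_of_eq ?_)
    ring
  have hsum := Finset.sum_le_sum hone
  rw [Finset.sum_add_distrib, ← Finset.sum_mul, ← Finset.mul_sum] at hsum
  refine hsum.trans ?_
  have h1 : P * (Real.cosh (lam * y) * (1 + (lam * B) ^ 2)) ≤
      Real.cosh (lam * y) * (1 + (lam * B) ^ 2) := by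
    have h2 : 0 ≤ Real.cosh (lam * y) * (1 + (lam * B) ^ 2) :=
      mul_nonneg hcosh.le (by positivity)
    calc P * (Real.cosh (lam * y) * (1 + (lam * B) ^ 2)) ≤
        1 * (Real.cosh (lam * y) * (1 + (lam * B) ^ 2)) := mul_le_mul_of_nonneg_right hp1 h2
      _ = _ := one_mul _
  have h2 : ∑ u ∈ S, p u * (D' u / ε' - y) =
      (∑ u ∈ S, p u * (D' u - D)) / ε' - P * (y * g) := by
    rw [Finset.sum_div, hP, Finset.sum_mul, ← Finset.sum_sub_distrib]
    refine Finset.sum_congr rfl fun u _ => ?_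
    rw [hdiff]
    ring
  rw [h2]
  set Q : ℝ := ∑ u ∈ S, p u * (D' u - D) with hQ
  have hQ1 : |Q / ε'| ≤ 12 * x := by
    rw [abs_div, abs_of_pos hε'0, div_le_iff₀ hε'0]
    have h3 := mul_le_mul_of_nonneg_left hε' (show 0 ≤ 12 * x by linarith)
    linarith
  have hkey : Real.sinh (lam * y) * (Q / ε' - P * (y * g)) ≤ 6 * Real.exp (lam / 2) * x := by
    have h3 : Real.sinh (lam * y) * (P * (y * g)) = |Real.sinh (lam * y)| * (P * (|y| * g)) := by
      rcases le_total 0 y with h | h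
      · rw [abs_of_nonneg h, abs_of_nonneg (Real.sinh_nonneg_iff.2 (mul_nonneg hlam.le h))]
      · rw [abs_of_nonpos h, abs_of_nonpos (Real.sinh_nonpos_iff.2 (mul_nonpos_of_nonneg_of_nonpos hlam.le h))]
        ring
    have h4 : Real.sinh (lam * y) * (Q / ε') ≤ |Real.sinh (lam * y)| * (12 * x) := by
      calc Real.sinh (lam * y) * (Q / ε') ≤ |Real.sinh (lam * y) * (Q / ε')| := le_abs_self _
        _ = |Real.sinh (lam * y)| * |Q / ε'| := abs_mul _ _
        _ ≤ _ := mul_le_mul_of_nonneg_left hQ1 (abs_nonneg _)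
    have h5 : 24 * x * |y| ≤ P * (|y| * g) := by
      have h6 : 24 * x ≤ P * g := by
        calc 24 * x = 1 / 2 * (48 * x) := by ring
          _ ≤ P * g := mul_le_mul hp2 hg1 (by linarith) (by linarith)
      calc 24 * x * |y| ≤ P * g * |y| := mul_le_mul_of_nonneg_right h6 (abs_nonneg _)
        _ = _ := by ring
    have h6 : |Real.sinh (lam * y)| * (24 * x * |y|) ≤ |Real.sinh (lam * y)| * (P * (|y| * g)) :=
      mul_le_mul_of_nonneg_left h5 (abs_nonneg _)
    have h7 : Real.sinh (lam * y) * (Q / ε' - P * (y * g)) ≤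
        |Real.sinh (lam * y)| * (12 * x - 24 * x * |y|) := by
      rw [mul_sub (Real.sinh (lam * y)), h3]
      linarith
    refine h7.trans ?_
    have hR : 0 ≤ 6 * Real.exp (lam / 2) * x := by positivity
    rcases le_total (1 / 2) |y| with h | h
    · refine le_trans ?_ hR
      refine mul_nonpos_of_nonneg_of_nonpos (abs_nonneg _) ?_
      have h11 := mul_le_mul_of_nonneg_left h (show 0 ≤ 24 * x by linarith)
      linarith
    · have h8 : |Real.sinh (lam * y)| ≤ Real.exp (lam / 2) / 2 := by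
        rw [Real.abs_sinh, abs_mul, abs_of_pos hlam]
        calc Real.sinh (lam * |y|) ≤ Real.sinh (lam / 2) := by
              rw [Real.sinh_le_sinh]
              have h11 := mul_le_mul_of_nonneg_left h hlam.le
              linarith
          _ ≤ Real.exp (lam / 2) / 2 := by
              rw [Real.sinh_eq]
              have := Real.exp_pos (-(lam / 2))
              linarith
      calc |Real.sinh (lam * y)| * (12 * x - 24 * x * |y|) ≤
          |Real.sinh (lam * y)| * (12 * x) := by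
            apply mul_le_mul_of_nonneg_left _ (abs_nonneg _)
            have h11 := mul_nonneg (show 0 ≤ 24 * x by linarith) (abs_nonneg y)
            linarith
        _ ≤ Real.exp (lam / 2) / 2 * (12 * x) := mul_le_mul_of_nonneg_right h8 (by linarith)
        _ = _ := by ring
  have h9 := mul_le_mul_of_nonneg_left hkey hlam.le
  have h10 : lam * Real.sinh (lam * y) * (Q / ε' - P * (y * g)) =
      lam * (Real.sinh (lam * y) * (Q / ε' - P * (y * g))) := by ring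
  rw [h10]
  linarith

/-- `48 x ≤ 1 - (1 - x) ^ 96 ≤ 96 x` for `0 ≤ x ≤ 1 / 96`: Bernoulli's inequality for the upper
bound, `(1 - x) ^ 96 (1 + 96 x) ≤ (1 - x) ^ 96 (1 + x) ^ 96 ≤ 1` and
`1 / (1 + 96 x) ≤ 1 - 48 x` for the lower bound. -/
theorem geo_bounds (x : ℝ) (h0 : 0 ≤ x) (h1 : x ≤ 1 / 96) :
    48 * x ≤ 1 - (1 - x) ^ 96 ∧ 1 - (1 - x) ^ 96 ≤ 96 * x := by
  obtain ⟨A, hA⟩ : ∃ A, A = (1 - x) ^ 96 := ⟨_, rfl⟩
  obtain ⟨B, hB⟩ : ∃ B, B = (1 + x) ^ 96 := ⟨_, rfl⟩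
  have h2 : 0 ≤ A := hA ▸ pow_nonneg (by linarith) _
  have h3 : 1 + ((96 : ℕ) : ℝ) * (-x) ≤ (1 + (-x)) ^ 96 := one_add_mul_le_pow (by linarith) 96
  have h4 : 1 + ((96 : ℕ) : ℝ) * x ≤ (1 + x) ^ 96 := one_add_mul_le_pow (by linarith) 96
  rw [← sub_eq_add_neg, ← hA] at h3
  rw [← hB] at h4
  have h5 : A * B ≤ 1 := by
    rw [hA, hB, ← mul_pow]
    have h0' : 0 ≤ x * x := mul_nonneg h0 h0
    have h1' : x * x ≤ 1 * x := mul_le_mul_of_nonneg_right (by linarith) h0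
    have h2' : (1 - x) * (1 + x) = 1 - x * x := by ring
    rw [h2']
    exact pow_le_one₀ (by linarith) (by linarith)
  rw [← hA]
  push_cast at h3 h4
  have h6 : A * (1 + 96 * x) ≤ 1 := (mul_le_mul_of_nonneg_left h4 h2).trans h5
  constructor
  · have h7 : 1 ≤ (1 + 96 * x) * (1 - 48 * x) := by nlinarith
    have h8 : 0 < 1 + 96 * x := by linarith
    have h9 : A * (1 + 96 * x) ≤ (1 - 48 * x) * (1 + 96 * x) := by linarith
    have h10 := le_of_mul_le_mul_right h9 h8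
    linarith
  · linarith

end Pool.Agent.W_cd7020_h81n
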