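import Pool.Agent.W_cd7020_h81n.NA

/-!
# The probability that a hyperedge is killed
-/

set_option autoImplicit false

namespace Pool.Agent.W_cd7020_h81n

open Finset

namespace NH

variable {η N : Type*} [DecidableEq η] [DecidableEq N] (H : NH η N)

/-- The sum of the `P` over a set of elements counts the common elements. -/
theorem NK_sum (t : ℝ) (A : Finset η) (T : Finset N) :
    ∑ v ∈ T, H.P t A v = ∑ e ∈ H.al A, ((T ∩ H.inc e).card : ℝ) * H.p t A e := by
  have h1 : ∀ v ∈ T, H.P t A v = ∑ e ∈ H.al A, if v ∈ H.inc e then H.p t A e else 0 := by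
    intro v _
    rw [P, Finset.sum_filter]
  rw [Finset.sum_congr rfl h1, Finset.sum_comm]
  refine Finset.sum_congr rfl fun e _ => ?_
  rw [← Finset.sum_filter, Finset.sum_const, nsmul_eq_mul, ← Finset.filter_mem_eq_inter]

theorem NK_lin {A : Finset η} {e e' : η} (he : e ∈ H.al A) (he' : e' ∈ H.al A) (h : e ≠ e') :
    (H.inc e' ∩ H.inc e).card ≤ 1 :=
  H.lin e' (Finset.mem_filter.1 he').1 e (Finset.mem_filter.1 he).1 (Ne.symm h)

/-- The probability that the alive hyperedge `e'` is not disjoint from the next hyperedge: two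
different hyperedges have at most one common element, so for `e ≠ e'` the number of `v ∈ inc e'`
with `v ∈ inc e` is `0` or `1`. -/
theorem killed (t : ℝ) (A : Finset η) (e' : η) (he' : e' ∈ H.al A) :
    ∑ e ∈ (H.al A).filter (fun e => ¬ Disjoint (H.inc e') (H.inc e)), H.p t A e =
      ∑ v ∈ H.inc e', H.P t A v - ((H.inc e').card - 1) * H.p t A e' := by
  rw [NK_sum, Finset.sum_filter, eq_sub_iff_add_eq]
  have h1 : ((H.inc e').card - 1 : ℝ) * H.p t A e' =
      ∑ e ∈ H.al A, if e = e' then ((H.inc e').card - 1 : ℝ) * H.p t A e' else 0 := by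
    rw [Finset.sum_ite_eq' (H.al A) e', if_pos he']
  rw [h1, ← Finset.sum_add_distrib]
  refine Finset.sum_congr rfl fun e he => ?_
  by_cases h : e = e'
  · subst h
    have h2 : ¬ Disjoint (H.inc e) (H.inc e) := by
      rw [disjoint_self, Finset.bot_eq_empty]
      exact (H.inc1 e (Finset.mem_filter.1 he').1).ne_empty
    rw [if_pos h2, if_pos rfl, Finset.inter_self]
    ring
  · rw [if_neg h, add_zero]
    have h3 := H.NK_lin he he' h
    by_cases h4 : Disjoint (H.inc e') (H.inc e)
    · rw [if_neg (not_not.2 h4), Finset.disjoint_iff_inter_eq_empty.1 h4, Finset.card_empty,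
        Nat.cast_zero, zero_mul]
    · rw [if_pos h4]
      have h5 : (H.inc e' ∩ H.inc e).card ≠ 0 := by
        rw [Ne, Finset.card_eq_zero, ← Finset.disjoint_iff_inter_eq_empty]
        exact h4
      have h6 : (H.inc e' ∩ H.inc e).card = 1 := by omega
      rw [h6, Nat.cast_one, one_mul]

/-- The same for the hyperedges which do not contain a given `v ∈ inc e'`. -/
theorem killed' (t : ℝ) (A : Finset η) (e' : η) (he' : e' ∈ H.al A) (v : N)
    (hv : v ∈ H.inc e') :
    ∑ e ∈ (H.al A).filter (fun e => v ∉ H.inc e ∧ ¬ Disjoint (H.inc e') (H.inc e)), H.p t A e =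
      ∑ u ∈ (H.inc e').erase v, (H.P t A u - H.p t A e') := by
  rw [Finset.sum_sub_distrib, NK_sum, Finset.sum_filter, eq_sub_iff_add_eq, Finset.sum_const,
    nsmul_eq_mul]
  have h1 : (((H.inc e').erase v).card : ℝ) * H.p t A e' =
      ∑ e ∈ H.al A, if e = e' then (((H.inc e').erase v).card : ℝ) * H.p t A e' else 0 := by
    rw [Finset.sum_ite_eq' (H.al A) e', if_pos he']
  rw [h1, ← Finset.sum_add_distrib]
  refine Finset.sum_congr rfl fun e he => ?_
  by_cases h : e = e'
  · subst h
    rw [if_neg (fun h2 => h2.1 hv), if_pos rfl, zero_add,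
      Finset.inter_eq_left.2 (Finset.erase_subset _ _)]
  · rw [if_neg h, add_zero]
    have h3 := H.NK_lin he he' h
    have h7 : (H.inc e').erase v ∩ H.inc e = (H.inc e' ∩ H.inc e).erase v := by
      rw [Finset.erase_inter]
    by_cases hve : v ∈ H.inc e
    · have h8 : v ∈ H.inc e' ∩ H.inc e := Finset.mem_inter.2 ⟨hv, hve⟩
      have h9 := Finset.card_erase_of_mem h8
      rw [if_neg (fun h2 => h2.1 hve), h7, h9]
      have h10 : (H.inc e' ∩ H.inc e).card - 1 = 0 := by omega
      rw [h10, Nat.cast_zero, zero_mul]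
    · have h8 : v ∉ H.inc e' ∩ H.inc e := fun h2 => hve (Finset.mem_inter.1 h2).2
      rw [h7, Finset.erase_eq_of_notMem h8]
      by_cases h4 : Disjoint (H.inc e') (H.inc e)
      · rw [if_neg (fun h2 => h2.2 h4), Finset.disjoint_iff_inter_eq_empty.1 h4, Finset.card_empty,
          Nat.cast_zero, zero_mul]
      · rw [if_pos ⟨hve, h4⟩]
        have h5 : (H.inc e' ∩ H.inc e).card ≠ 0 := by
          rw [Ne, Finset.card_eq_zero, ← Finset.disjoint_iff_inter_eq_empty]
          exact h4
        have h6 : (H.inc e' ∩ H.inc e).card = 1 := by omega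
        rw [h6, Nat.cast_one, one_mul]

end NH

end Pool.Agent.W_cd7020_h81n
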