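import Pool.Agent.W_cd7020_h81n.NA

/-!
# The error of a product
-/

set_option autoImplicit false

namespace Pool.Agent.W_cd7020_h81n

open Finset

/-- With `R = ∑ x` and `∏ (1 + x) = 1 + R + d`, `0 ≤ d ≤ 4 ρ²` (`NH.prod_bounds`):
`∏ (1 + x) (q - κ) - q = (R - κ) + d - (R + d) (1 - q) - (R + d) κ`, and
`(R + d) (1 - q + κ) ≤ (3 ρ + 4 ρ²) (6 ρ) ≤ 20 ρ²`. -/
theorem kill_err {α : Type*} (S : Finset α) (hS : S.card ≤ 3) (x : α → ℝ) (ρ κ q δ : ℝ)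
    (h0 : ∀ a ∈ S, 0 ≤ x a) (h1 : ∀ a ∈ S, x a ≤ ρ) (hρ0 : 0 ≤ ρ) (hρ : ρ ≤ 1 / 100)
    (hκ0 : 0 ≤ κ) (hκ1 : κ ≤ 9 / 2 * ρ) (hq0 : 1 - 3 / 2 * ρ ≤ q) (hq1 : q ≤ 1)
    (hδ : |κ - ∑ a ∈ S, x a| ≤ δ) :
    |(∏ a ∈ S, (1 + x a)) * (q - κ) - q| ≤ δ + 20 * ρ ^ 2 := by
  obtain ⟨hp1, hp2⟩ := NH.prod_bounds S hS x ρ h0 h1 hρ
  set R : ℝ := ∑ a ∈ S, x a with hR
  have hR0 : 0 ≤ R := Finset.sum_nonneg h0
  have hR3 : R ≤ 3 * ρ := by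
    have h2 : R ≤ S.card * ρ := by
      rw [hR, ← nsmul_eq_mul]
      exact Finset.sum_le_card_nsmul S x ρ h1
    have h3 : (S.card : ℝ) ≤ 3 := by exact_mod_cast hS
    nlinarith
  obtain ⟨d, hd⟩ : ∃ d, ∏ a ∈ S, (1 + x a) = 1 + R + d := ⟨∏ a ∈ S, (1 + x a) - (1 + R), by ring⟩
  have hd0 : 0 ≤ d := by linarith
  have hd1 : d ≤ 4 * ρ ^ 2 := by linarith
  rw [hd]
  have h4 : (1 + R + d) * (q - κ) - q = (R - κ) + (d - (R + d) * (1 - q + κ)) := by ring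
  rw [h4]
  have h5 : |R - κ| ≤ δ := by rw [abs_sub_comm]; exact hδ
  have h6 : 0 ≤ (R + d) * (1 - q + κ) :=
    mul_nonneg (by linarith) (by linarith)
  have h7 : (R + d) * (1 - q + κ) ≤ (3 * ρ + 4 * ρ ^ 2) * (6 * ρ) :=
    mul_le_mul (by linarith) (by linarith) (by linarith) (by positivity)
  have h8 : (3 * ρ + 4 * ρ ^ 2) * (6 * ρ) ≤ 20 * ρ ^ 2 := by
    nlinarith [sq_nonneg ρ, mul_nonneg (sq_nonneg ρ) (sub_nonneg.2 hρ)]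
  have h9 : |d - (R + d) * (1 - q + κ)| ≤ 20 * ρ ^ 2 := by
    rw [abs_le]
    constructor
    · linarith
    · nlinarith [sq_nonneg ρ]
  exact (abs_add_le _ _).trans (by linarith)

namespace NH

variable {η N : Type*} [DecidableEq η] [DecidableEq N] (H : NH η N)

/-- `ρ² / τ = 1 / (n² τ³) ≤ ε / (70 n) ≤ ε / (70 n (1 - t))`. -/
theorem rho_sq (t ε : ℝ) (h0 : 0 ≤ t) (h1 : t + 1 / H.n ≤ 1 - H.τ) (hε : H.e₀ ≤ ε) :
    H.ρ ^ 2 / H.τ ≤ 1 / 70 * (ε / (H.n * (1 - t))) ∧ H.ρ ^ 2 ≤ H.ρ ^ 2 / H.τ := by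
  have hn := H.n_pos
  have hτ := H.τ0
  have hτ1 := H.τ1
  have he := H.e0
  have hn1 : 0 < 1 / (H.n : ℝ) := by positivity
  have ht : 0 < 1 - t := by linarith
  constructor
  · have h2 : H.ρ ^ 2 / H.τ = 1 / (H.n * H.τ ^ 3) / H.n := by
      unfold ρ
      field_simp
    have h3 : 1 / (H.n * H.τ ^ 3) ≤ H.e₀ / 70 := by
      have h4 := H.n1
      rw [div_le_iff₀ (by positivity)] at h4
      rw [div_le_div_iff₀ (by positivity) (by norm_num)]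
      linarith
    have h5 : ε / H.n ≤ ε / (H.n * (1 - t)) := by
      apply div_le_div_of_nonneg_left (by linarith) (by positivity)
      nlinarith
    rw [h2]
    calc 1 / (H.n * H.τ ^ 3) / H.n ≤ H.e₀ / 70 / H.n := div_le_div_of_nonneg_right h3 hn.le
      _ ≤ ε / 70 / H.n := by
        apply div_le_div_of_nonneg_right _ hn.le
        linarith
      _ = 1 / 70 * (ε / H.n) := by ring
      _ ≤ _ := mul_le_mul_of_nonneg_left h5 (by norm_num)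
  · rw [le_div_iff₀ hτ]
    have := mul_le_mul_of_nonneg_left hτ1 (sq_nonneg H.ρ)
    linarith

end NH

end Pool.Agent.W_cd7020_h81n
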