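import Pool.Agent.W_cd7020_h81n.NB
import Pool.Agent.W_cd7020_h81n.NK
import Pool.Agent.W_cd7020_h81n.NL

/-!
# The drift of the sums `M`
-/

set_option autoImplicit false

namespace Pool.Agent.W_cd7020_h81n

open Finset

namespace NH

variable {η N : Type*} [DecidableEq η] [DecidableEq N] (H : NH η N)

theorem ND_al_insert (A : Finset η) (e : η) :
    H.al (insert e A) = (H.al A).filter (fun e' => Disjoint (H.inc e') (H.inc e)) := by
  ext e'
  rw [Finset.mem_filter]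
  exact H.al_insert A e e'

theorem ND_mem {A : Finset η} {e : η} (he : e ∈ H.al A) {v : N} (hv : v ∈ H.inc e) :
    v ∈ H.E.biUnion H.inc ∧ v ∉ H.cov A := by
  unfold al at he
  rw [Finset.mem_filter] at he
  exact ⟨Finset.mem_biUnion.2 ⟨e, he.1, hv⟩, fun h => Finset.disjoint_left.1 he.2 hv h⟩

theorem ND_E {A : Finset η} {e : η} (he : e ∈ H.al A) : e ∈ H.E := by
  unfold al at he
  exact (Finset.mem_filter.1 he).1

theorem ND_tpos {t ε : ℝ} {A : Finset η} (h : H.St t ε A) : 0 < 1 - t := by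
  have h1 := h.t1
  have h2 := H.n_pos
  have h3 := H.τ0
  have h4 : 0 < 1 / (H.n : ℝ) := by positivity
  linarith

/-- `M` after a step: the alive hyperedges `e'` which are disjoint from `e`, with the new weights
(`al_insert`, `w_step`). -/
theorem M_step (t : ℝ) (h0 : 0 ≤ t) (h1 : t + 1 / H.n ≤ 1 - H.τ) (A : Finset η) (e : η)
    (f : η → ℝ) :
    H.M (t + 1 / H.n) (insert e A) f =
      ∑ e' ∈ (H.al A).filter (fun e' => Disjoint (H.inc e') (H.inc e)),
        f e' * H.w t e' * ∏ v ∈ H.inc e', (1 + H.r t v) := by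
  unfold M
  rw [ND_al_insert]
  refine Finset.sum_congr rfl fun e' _ => ?_
  rw [H.w_step t h0 h1 e']
  ring

/-- The expected value after a step: exchange the sums in `M_step`, use `p_sum` and `killed`. -/
theorem M_avg (t ε : ℝ) (A : Finset η) (h : H.St t ε A) (f : η → ℝ) :
    ∑ e ∈ H.al A, H.p t A e * H.M (t + 1 / H.n) (insert e A) f =
      ∑ e' ∈ H.al A, f e' * H.w t e' * ((∏ v ∈ H.inc e', (1 + H.r t v)) *
        (1 - (∑ v ∈ H.inc e', H.P t A v - ((H.inc e').card - 1) * H.p t A e'))) := by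
  have e1 : ∑ e ∈ H.al A, H.p t A e * H.M (t + 1 / H.n) (insert e A) f =
      ∑ e ∈ H.al A, ∑ e' ∈ H.al A, if Disjoint (H.inc e') (H.inc e) then
        H.p t A e * (f e' * H.w t e' * ∏ v ∈ H.inc e', (1 + H.r t v)) else 0 := by
    refine Finset.sum_congr rfl fun e _ => ?_
    rw [H.M_step t h.t0 h.t1, Finset.mul_sum, Finset.sum_filter]
  rw [e1, Finset.sum_comm]
  refine Finset.sum_congr rfl fun e' he' => ?_
  rw [← Finset.sum_filter, ← Finset.sum_mul]
  have e2 : ∑ e ∈ (H.al A).filter (fun e => Disjoint (H.inc e') (H.inc e)), H.p t A e =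
      1 - (∑ v ∈ H.inc e', H.P t A v - ((H.inc e').card - 1) * H.p t A e') := by
    rw [← H.killed t A e' he', ← H.p_sum t ε A h]
    rw [← Finset.sum_filter_add_sum_filter_not (H.al A)
      (fun e => Disjoint (H.inc e') (H.inc e))]
    ring
  rw [e2]
  ring

/-- The relative error of one hyperedge: `kill_err` with `q = 1`,
`κ = ∑ P v - (|inc e'| - 1) p e'` (`killed`: `κ ≥ 0`; `P_bounds`: `κ ≤ 9/2 ρ`),
`δ = 3 (16/5 ε / (n (1 - t)) + ρ²) + 5 ρ² / τ` (`P_near`, `p_bounds`), and `28 ρ² / τ ≤ 2/5 ε / (n (1 - t))`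
(`rho_sq`). The elements `v ∈ inc e'` of the alive `e'` are uncovered. -/
theorem M_rel (t ε : ℝ) (A : Finset η) (h : H.St t ε A) (e' : η) (he' : e' ∈ H.al A) :
    |(∏ v ∈ H.inc e', (1 + H.r t v)) *
        (1 - (∑ v ∈ H.inc e', H.P t A v - ((H.inc e').card - 1) * H.p t A e')) - 1| ≤
      10 * ε / (H.n * (1 - t)) := by
  have ht := H.ND_tpos h
  have hn := H.n_pos
  have hτ := H.τ0
  obtain ⟨hρ0, _, _, hρ1, _⟩ := H.rho_bounds
  have hE := H.ND_E he'
  have hc3 := H.inc3 e' hE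
  have hc1 : 1 ≤ (H.inc e').card := Finset.card_pos.2 (H.inc1 e' hE)
  have hc3R : ((H.inc e').card : ℝ) ≤ 3 := by exact_mod_cast hc3
  have hc1R : (1 : ℝ) ≤ (H.inc e').card := by exact_mod_cast hc1
  obtain ⟨hp0, hp1⟩ := H.p_bounds t ε A h e' he'
  obtain ⟨hs1, hs2⟩ := H.rho_sq t ε h.t0 h.t1 h.ε0
  set x : ℝ := ε / (H.n * (1 - t)) with hx
  have hκ0 : 0 ≤ ∑ v ∈ H.inc e', H.P t A v - ((H.inc e').card - 1) * H.p t A e' := by
    rw [← H.killed t A e' he']
    exact Finset.sum_nonneg fun e he => (H.p_bounds t ε A h e (Finset.mem_filter.1 he).1).1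
  have hκ1 : ∑ v ∈ H.inc e', H.P t A v - ((H.inc e').card - 1) * H.p t A e' ≤ 9 / 2 * H.ρ := by
    have h1 : ∑ v ∈ H.inc e', H.P t A v ≤ ∑ _v ∈ H.inc e', 3 / 2 * H.ρ :=
      Finset.sum_le_sum fun v hv => (H.P_bounds t ε A h v (H.ND_mem he' hv).1
        (H.ND_mem he' hv).2).2
    rw [Finset.sum_const, nsmul_eq_mul] at h1
    have h2 : 0 ≤ ((H.inc e').card - 1) * H.p t A e' := mul_nonneg (by linarith) hp0
    nlinarith
  have hδ : |(∑ v ∈ H.inc e', H.P t A v - ((H.inc e').card - 1) * H.p t A e') -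
      ∑ v ∈ H.inc e', H.r t v| ≤ 3 * (16 / 5 * x + H.ρ ^ 2) + 5 * (H.ρ ^ 2 / H.τ) := by
    have e1 : (∑ v ∈ H.inc e', H.P t A v - ((H.inc e').card - 1) * H.p t A e') -
      ∑ v ∈ H.inc e', H.r t v = ∑ v ∈ H.inc e', (H.P t A v - H.r t v) -
        ((H.inc e').card - 1) * H.p t A e' := by
      rw [Finset.sum_sub_distrib]
      ring
    rw [e1]
    have h1 : |∑ v ∈ H.inc e', (H.P t A v - H.r t v)| ≤ 3 * (16 / 5 * x + H.ρ ^ 2) := by
      refine (Finset.abs_sum_le_sum_abs _ _).trans ?_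
      have h2 : ∑ v ∈ H.inc e', |H.P t A v - H.r t v| ≤
          ∑ _v ∈ H.inc e', (16 / 5 * x + H.ρ ^ 2) := by
        refine Finset.sum_le_sum fun v hv => ?_
        have h3 := H.P_near t ε A h v (H.ND_mem he' hv).1 (H.ND_mem he' hv).2
        rw [hx]
        refine h3.trans (le_of_eq ?_)
        ring
      rw [Finset.sum_const, nsmul_eq_mul] at h2
      have hx0 : 0 ≤ x := by
        have := h.ε0
        have := H.e0
        have : 0 ≤ ε := by linarith
        positivity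
      have h4 : ((H.inc e').card : ℝ) * (16 / 5 * x + H.ρ ^ 2) ≤ 3 * (16 / 5 * x + H.ρ ^ 2) :=
        mul_le_mul_of_nonneg_right hc3R (by positivity)
      linarith
    have h2 : |((H.inc e').card - 1) * H.p t A e'| ≤ 5 * (H.ρ ^ 2 / H.τ) := by
      rw [abs_of_nonneg (mul_nonneg (by linarith) hp0)]
      have h5 : ((H.inc e').card - 1 : ℝ) * H.p t A e' ≤ 2 * (5 / 2 * H.ρ ^ 2 / H.τ) :=
        mul_le_mul (by linarith) hp1 hp0 (by norm_num)
      refine h5.trans (le_of_eq ?_)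
      ring
    calc |∑ v ∈ H.inc e', (H.P t A v - H.r t v) - ((H.inc e').card - 1) * H.p t A e'|
        ≤ |∑ v ∈ H.inc e', (H.P t A v - H.r t v)| + |((H.inc e').card - 1) * H.p t A e'| :=
          abs_sub _ _
      _ ≤ _ := add_le_add h1 h2
  have hk := kill_err (H.inc e') hc3 (H.r t) H.ρ _ 1 _
    (fun v _ => (H.r_bounds t h.t0 h.t1 v).1) (fun v _ => (H.r_bounds t h.t0 h.t1 v).2)
    hρ0.le hρ1 hκ0 hκ1 (by linarith) le_rfl hδ
  refine hk.trans ?_
  have e3 : 10 * ε / (H.n * (1 - t)) = 10 * x := by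
    rw [hx]
    ring
  rw [e3]
  linarith

/-- The drift of `M`: `M_avg`, `M_rel`, `M_bounds`. -/
theorem M_drift (t ε : ℝ) (A : Finset η) (h : H.St t ε A) (f : η → ℝ) (hf0 : ∀ e, 0 ≤ f e)
    (hf1 : ∀ e, f e ≤ 1) :
    |∑ e ∈ H.al A, H.p t A e * (H.M (t + 1 / H.n) (insert e A) f - H.M t A f)| ≤
      12 * ε / (1 - t) := by
  have ht := H.ND_tpos h
  have hn := H.n_pos
  have e1 : ∑ e ∈ H.al A, H.p t A e * (H.M (t + 1 / H.n) (insert e A) f - H.M t A f) =
      ∑ e' ∈ H.al A, f e' * H.w t e' * ((∏ v ∈ H.inc e', (1 + H.r t v)) *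
        (1 - (∑ v ∈ H.inc e', H.P t A v - ((H.inc e').card - 1) * H.p t A e')) - 1) := by
    have h1 := H.M_avg t ε A h f
    have h2 := H.p_sum t ε A h
    simp only [mul_sub, mul_one]
    rw [Finset.sum_sub_distrib, h1, ← Finset.sum_mul, h2, one_mul, Finset.sum_sub_distrib]
    simp only [mul_sub, mul_one]
    rfl
  rw [e1]
  refine (Finset.abs_sum_le_sum_abs _ _).trans ?_
  have hw : ∀ e' ∈ H.al A, 0 ≤ f e' * H.w t e' := by
    intro e' he'
    have h1 : t ≤ 1 - H.τ := by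
      have := h.t1
      have : 0 < 1 / (H.n : ℝ) := by positivity
      linarith
    exact mul_nonneg (hf0 e') (H.w_bounds t h.t0 h1 e' (H.ND_E he')).1
  have h3 : ∀ e' ∈ H.al A, |f e' * H.w t e' * ((∏ v ∈ H.inc e', (1 + H.r t v)) *
        (1 - (∑ v ∈ H.inc e', H.P t A v - ((H.inc e').card - 1) * H.p t A e')) - 1)| ≤
      f e' * H.w t e' * (10 * ε / (H.n * (1 - t))) := by
    intro e' he'
    rw [abs_mul, abs_of_nonneg (hw e' he')]
    exact mul_le_mul_of_nonneg_left (H.M_rel t ε A h e' he') (hw e' he')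
  refine (Finset.sum_le_sum h3).trans ?_
  rw [← Finset.sum_mul]
  have h4 := (H.M_bounds t ε A h f hf0 hf1).2
  have h5 : 0 ≤ 10 * ε / (H.n * (1 - t)) := by
    have := h.ε0
    have := H.e0
    have : 0 ≤ ε := by linarith
    positivity
  refine (mul_le_mul_of_nonneg_right h4 h5).trans (le_of_eq ?_)
  field_simp
  ring

/-- `0 ≤ M₀ f ≤ 17/16 n` (`tot`, `e₀ ≤ 1/8`). -/
theorem M₀_bounds (f : η → ℝ) (hf0 : ∀ e, 0 ≤ f e) (hf1 : ∀ e, f e ≤ 1) :
    0 ≤ H.M₀ f ∧ H.M₀ f ≤ 17 / 16 * H.n := by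
  have hn := H.n_pos
  constructor
  · exact Finset.sum_nonneg fun e he => mul_nonneg (hf0 e) (H.ω0 e he)
  · have h1 : H.M₀ f ≤ ∑ e ∈ H.E, H.ω e := Finset.sum_le_sum fun e he => by
      have := H.ω0 e he
      have := hf1 e
      nlinarith
    have h2 := (abs_le.1 H.tot).2
    have h3 : H.e₀ ≤ 1 / 8 := by
      have h4 : H.τ ^ 96 ≤ 1 := pow_le_one₀ H.τ0.le H.τ1
      have := H.e8
      linarith
    nlinarith

/-- `∑ p f = M f / Z`, and `M f / Z - M₀ f / n = (M f - M₀ f) / Z + M₀ f (n - Z) / (Z n)`, at most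
`5/4 ε + 17/16 (3/2) (5/4) ε ≤ 4 ε`. -/
theorem T_drift (t ε : ℝ) (A : Finset η) (h : H.St t ε A) (f : η → ℝ) (hf0 : ∀ e, 0 ≤ f e)
    (hf1 : ∀ e, f e ≤ 1) (hM : |H.M t A f - H.M₀ f| ≤ ε * H.n) :
    |∑ e ∈ H.al A, H.p t A e * (f e - H.M₀ f / H.n)| ≤ 4 * ε := by
  have hn := H.n_pos
  obtain ⟨hZ1, hZ2⟩ := H.Z_bounds t ε A h
  have hZ0 : 0 < H.Z t A := by linarith
  obtain ⟨hm0, hm1⟩ := H.M₀_bounds f hf0 hf1
  have hε0 : 0 ≤ ε := by
    have := h.ε0
    have := H.e0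
    linarith
  have e1 : ∑ e ∈ H.al A, H.p t A e * (f e - H.M₀ f / H.n) =
      (H.M t A f - H.M₀ f) / H.Z t A + H.M₀ f * (H.n - H.Z t A) / (H.Z t A * H.n) := by
    have h1 : ∑ e ∈ H.al A, H.p t A e * f e = H.M t A f / H.Z t A := by
      unfold M p
      rw [Finset.sum_div]
      exact Finset.sum_congr rfl fun e _ => by ring
    have h2 := H.p_sum t ε A h
    simp only [mul_sub]
    rw [Finset.sum_sub_distrib, h1, ← Finset.sum_mul, h2]
    field_simp
    ring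
  rw [e1]
  have h3 : |(H.M t A f - H.M₀ f) / H.Z t A| ≤ 5 / 4 * ε := by
    rw [abs_div, abs_of_pos hZ0, div_le_iff₀ hZ0]
    nlinarith
  have h4 : |H.M₀ f * (H.n - H.Z t A) / (H.Z t A * H.n)| ≤ 2 * ε := by
    have hpos : 0 < H.Z t A * H.n := mul_pos hZ0 hn
    rw [abs_div, abs_of_pos hpos, div_le_iff₀ hpos, abs_mul, abs_of_nonneg hm0]
    have h5 : |(H.n : ℝ) - H.Z t A| ≤ 3 / 2 * ε * H.n := by
      rw [abs_sub_comm]
      exact h.hZ
    have h6 : H.M₀ f * |(H.n : ℝ) - H.Z t A| ≤ (17 / 16 * H.n) * (3 / 2 * ε * H.n) :=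
      mul_le_mul hm1 h5 (abs_nonneg _) (by positivity)
    refine h6.trans ?_
    have h7 : 2 * ε * (4 / 5 * H.n * H.n) ≤ 2 * ε * (H.Z t A * H.n) :=
      mul_le_mul_of_nonneg_left (mul_le_mul_of_nonneg_right hZ1 hn.le) (by linarith)
    have h8 : 0 ≤ ε * ((H.n : ℝ) * H.n) := by positivity
    nlinarith
  refine (abs_add_le _ _).trans ?_
  linarith

end NH

end Pool.Agent.W_cd7020_h81n
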