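import Pool.Agent.W_cd7020_h81n.NB
import Pool.Agent.W_cd7020_h81n.NK
import Pool.Agent.W_cd7020_h81n.NL

/-!
# The drift of the sums `X`
-/

set_option autoImplicit false

namespace Pool.Agent.W_cd7020_h81n

open Finset

namespace NH

variable {η N : Type*} [DecidableEq η] [DecidableEq N] (H : NH η N)

theorem NE_al_insert (A : Finset η) (e : η) :
    H.al (insert e A) = (H.al A).filter (fun e' => Disjoint (H.inc e') (H.inc e)) := by
  ext e'
  rw [Finset.mem_filter]
  exact H.al_insert A e e'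

theorem NE_mem {A : Finset η} {e : η} (he : e ∈ H.al A) {v : N} (hv : v ∈ H.inc e) :
    v ∈ H.E.biUnion H.inc ∧ v ∉ H.cov A := by
  unfold al at he
  rw [Finset.mem_filter] at he
  exact ⟨Finset.mem_biUnion.2 ⟨e, he.1, hv⟩, fun h => Finset.disjoint_left.1 he.2 hv h⟩

theorem NE_E {A : Finset η} {e : η} (he : e ∈ H.al A) : e ∈ H.E := by
  unfold al at he
  exact (Finset.mem_filter.1 he).1

theorem NE_tpos {t ε : ℝ} {A : Finset η} (h : H.St t ε A) : 0 < 1 - t := by
  have h1 := h.t1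
  have h2 := H.n_pos
  have h3 := H.τ0
  have h4 : 0 < 1 / (H.n : ℝ) := by positivity
  linarith

/-- `X v` after a step with a hyperedge `e` which does not contain `v` (`al_insert`,
`w_step'`). -/
theorem X_step (t : ℝ) (h0 : 0 ≤ t) (h1 : t + 1 / H.n ≤ 1 - H.τ) (A : Finset η) (e : η) (v : N)
    (hv : v ∉ H.inc e) :
    H.X (t + 1 / H.n) (insert e A) v =
      ∑ e' ∈ (H.al A).filter (fun e' => v ∈ H.inc e' ∧ Disjoint (H.inc e') (H.inc e)),
        (1 - t * H.s v) * H.w t e' * ∏ u ∈ (H.inc e').erase v, (1 + H.r t u) := by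
  unfold X
  rw [NE_al_insert, Finset.filter_filter, Finset.mul_sum]
  have e1 : (H.al A).filter (fun e' => Disjoint (H.inc e') (H.inc e) ∧ v ∈ H.inc e') =
      (H.al A).filter (fun e' => v ∈ H.inc e' ∧ Disjoint (H.inc e') (H.inc e)) :=
    Finset.filter_congr fun e' _ => and_comm
  rw [e1]
  refine Finset.sum_congr rfl fun e' he' => ?_
  exact H.w_step' t h0 h1 e' v (Finset.mem_filter.1 he').2.1

/-- `∑ e alive, v ∉ inc e, p e = 1 - P v`. -/
theorem p_sum' (t ε : ℝ) (A : Finset η) (h : H.St t ε A) (v : N) :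
    ∑ e ∈ (H.al A).filter (fun e => v ∉ H.inc e), H.p t A e = 1 - H.P t A v := by
  have h1 := Finset.sum_filter_add_sum_filter_not (H.al A) (fun e => v ∈ H.inc e)
    (fun e => H.p t A e)
  rw [H.p_sum t ε A h] at h1
  unfold P
  linarith

/-- The expected value after a step: exchange the sums in `X_step`, use `p_sum'` and
`killed'`. -/
theorem X_avg (t ε : ℝ) (A : Finset η) (h : H.St t ε A) (v : N) :
    ∑ e ∈ (H.al A).filter (fun e => v ∉ H.inc e),
        H.p t A e * H.X (t + 1 / H.n) (insert e A) v =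
      ∑ e' ∈ (H.al A).filter (fun e' => v ∈ H.inc e'), (1 - t * H.s v) * H.w t e' *
        ((∏ u ∈ (H.inc e').erase v, (1 + H.r t u)) *
          ((1 - H.P t A v) - ∑ u ∈ (H.inc e').erase v, (H.P t A u - H.p t A e'))) := by
  have e1 : ∑ e ∈ (H.al A).filter (fun e => v ∉ H.inc e),
        H.p t A e * H.X (t + 1 / H.n) (insert e A) v =
      ∑ e ∈ (H.al A).filter (fun e => v ∉ H.inc e),
        ∑ e' ∈ (H.al A).filter (fun e' => v ∈ H.inc e'),
          if Disjoint (H.inc e') (H.inc e) then H.p t A e * ((1 - t * H.s v) * H.w t e' *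
            ∏ u ∈ (H.inc e').erase v, (1 + H.r t u)) else 0 := by
    refine Finset.sum_congr rfl fun e he => ?_
    rw [H.X_step t h.t0 h.t1 A e v (Finset.mem_filter.1 he).2, Finset.mul_sum,
      ← Finset.filter_filter, Finset.sum_filter (fun e' => Disjoint (H.inc e') (H.inc e))]
  rw [e1, Finset.sum_comm]
  refine Finset.sum_congr rfl fun e' he' => ?_
  obtain ⟨he1, he2⟩ := Finset.mem_filter.1 he'
  rw [← Finset.sum_filter, ← Finset.sum_mul]
  have e2 : ∑ e ∈ ((H.al A).filter (fun e => v ∉ H.inc e)).filter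
        (fun e => Disjoint (H.inc e') (H.inc e)), H.p t A e =
      (1 - H.P t A v) - ∑ u ∈ (H.inc e').erase v, (H.P t A u - H.p t A e') := by
    rw [← H.killed' t A e' he1 v he2, ← H.p_sum' t ε A h v, ← Finset.filter_filter]
    have h1 := Finset.sum_filter_add_sum_filter_not ((H.al A).filter (fun e => v ∉ H.inc e))
      (fun e => Disjoint (H.inc e') (H.inc e)) (fun e => H.p t A e)
    linarith
  rw [e2]
  ring

/-- The relative error of one hyperedge: `kill_err` with `q = 1 - P v`,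
`κ = ∑ (P u - p e')` (`killed'`: `κ ≥ 0`), `δ = 2 (16/5 ε / (n (1 - t)) + ρ²) + 5 ρ² / τ`. -/
theorem X_rel (t ε : ℝ) (A : Finset η) (h : H.St t ε A) (v : N) (e' : η) (he' : e' ∈ H.al A)
    (hv : v ∈ H.inc e') :
    |(∏ u ∈ (H.inc e').erase v, (1 + H.r t u)) *
          ((1 - H.P t A v) - ∑ u ∈ (H.inc e').erase v, (H.P t A u - H.p t A e')) -
        (1 - H.P t A v)| ≤ 10 * ε / (H.n * (1 - t)) := by
  have ht := H.NE_tpos h
  have hn := H.n_pos
  have hτ := H.τ0
  obtain ⟨hρ0, _, _, hρ1, _⟩ := H.rho_bounds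
  have hE := H.NE_E he'
  have hc3 := H.inc3 e' hE
  have hcard : ((H.inc e').erase v).card ≤ 2 := by
    rw [Finset.card_erase_of_mem hv]
    omega
  have hcR : (((H.inc e').erase v).card : ℝ) ≤ 2 := by exact_mod_cast hcard
  obtain ⟨hp0, hp1⟩ := H.p_bounds t ε A h e' he'
  obtain ⟨hs1, hs2⟩ := H.rho_sq t ε h.t0 h.t1 h.ε0
  have hmem := H.NE_mem he' hv
  obtain ⟨hP0, hP1⟩ := H.P_bounds t ε A h v hmem.1 hmem.2
  set x : ℝ := ε / (H.n * (1 - t)) with hx
  have hx0 : 0 ≤ x := by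
    have := h.ε0
    have := H.e0
    have : 0 ≤ ε := by linarith
    positivity
  have hmu : ∀ u ∈ (H.inc e').erase v, u ∈ H.E.biUnion H.inc ∧ u ∉ H.cov A := fun u hu =>
    H.NE_mem he' (Finset.mem_of_mem_erase hu)
  have hκ0 : 0 ≤ ∑ u ∈ (H.inc e').erase v, (H.P t A u - H.p t A e') := by
    rw [← H.killed' t A e' he' v hv]
    exact Finset.sum_nonneg fun e he => (H.p_bounds t ε A h e (Finset.mem_filter.1 he).1).1
  have hκ1 : ∑ u ∈ (H.inc e').erase v, (H.P t A u - H.p t A e') ≤ 9 / 2 * H.ρ := by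
    have h1 : ∑ u ∈ (H.inc e').erase v, (H.P t A u - H.p t A e') ≤
        ∑ _u ∈ (H.inc e').erase v, 3 / 2 * H.ρ := Finset.sum_le_sum fun u hu => by
      have := (H.P_bounds t ε A h u (hmu u hu).1 (hmu u hu).2).2
      linarith
    rw [Finset.sum_const, nsmul_eq_mul] at h1
    nlinarith
  have hδ : |∑ u ∈ (H.inc e').erase v, (H.P t A u - H.p t A e') -
      ∑ u ∈ (H.inc e').erase v, H.r t u| ≤ 2 * (16 / 5 * x + H.ρ ^ 2) +
        5 * (H.ρ ^ 2 / H.τ) := by
    rw [← Finset.sum_sub_distrib]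
    refine (Finset.abs_sum_le_sum_abs _ _).trans ?_
    have h2 : ∑ u ∈ (H.inc e').erase v, |H.P t A u - H.p t A e' - H.r t u| ≤
        ∑ _u ∈ (H.inc e').erase v, ((16 / 5 * x + H.ρ ^ 2) + 5 / 2 * (H.ρ ^ 2 / H.τ)) := by
      refine Finset.sum_le_sum fun u hu => ?_
      have h3 := H.P_near t ε A h u (hmu u hu).1 (hmu u hu).2
      have h4 : 16 / 5 * ε / (H.n * (1 - t)) = 16 / 5 * x := by
        rw [hx]
        ring
      rw [h4] at h3
      have h5 : 5 / 2 * H.ρ ^ 2 / H.τ = 5 / 2 * (H.ρ ^ 2 / H.τ) := by ring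
      rw [h5] at hp1
      have h6 := abs_le.1 h3
      rw [abs_le]
      constructor
      · linarith [h6.1]
      · have h7 : 0 ≤ H.ρ ^ 2 / H.τ := by positivity
        linarith [h6.2]
    rw [Finset.sum_const, nsmul_eq_mul] at h2
    have h8 : 0 ≤ (16 / 5 * x + H.ρ ^ 2) + 5 / 2 * (H.ρ ^ 2 / H.τ) := by positivity
    have h9 := mul_le_mul_of_nonneg_right hcR h8
    linarith
  have hk := kill_err ((H.inc e').erase v) (by omega) (H.r t) H.ρ _ (1 - H.P t A v) _
    (fun u _ => (H.r_bounds t h.t0 h.t1 u).1) (fun u _ => (H.r_bounds t h.t0 h.t1 u).2)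
    hρ0.le hρ1 hκ0 hκ1 (by linarith) (by linarith) hδ
  refine hk.trans ?_
  have e3 : 10 * ε / (H.n * (1 - t)) = 10 * x := by
    rw [hx]
    ring
  rw [e3]
  linarith

/-- The drift of `X`: `X_avg`, `X_rel`, `p_sum'` and `X v ≤ s v + ε ≤ 9/8`. -/
theorem X_drift (t ε : ℝ) (A : Finset η) (h : H.St t ε A) (v : N)
    (hv : v ∈ H.E.biUnion H.inc) (hv' : v ∉ H.cov A) :
    |∑ e ∈ (H.al A).filter (fun e => v ∉ H.inc e),
        H.p t A e * (H.X (t + 1 / H.n) (insert e A) v - H.X t A v)| ≤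
      12 * ε / (H.n * (1 - t)) := by
  have ht := H.NE_tpos h
  have hn := H.n_pos
  have hτ := H.τ0
  have hX : H.X t A v = ∑ e' ∈ (H.al A).filter (fun e' => v ∈ H.inc e'),
      (1 - t * H.s v) * H.w t e' := by
    unfold X
    rw [Finset.mul_sum]
  have e1 : ∑ e ∈ (H.al A).filter (fun e => v ∉ H.inc e),
        H.p t A e * (H.X (t + 1 / H.n) (insert e A) v - H.X t A v) =
      ∑ e' ∈ (H.al A).filter (fun e' => v ∈ H.inc e'), (1 - t * H.s v) * H.w t e' *
        ((∏ u ∈ (H.inc e').erase v, (1 + H.r t u)) *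
          ((1 - H.P t A v) - ∑ u ∈ (H.inc e').erase v, (H.P t A u - H.p t A e')) -
          (1 - H.P t A v)) := by
    have h1 := H.X_avg t ε A h v
    have h2 := H.p_sum' t ε A h v
    have h3 : ∑ e' ∈ (H.al A).filter (fun e' => v ∈ H.inc e'), (1 - t * H.s v) * H.w t e' *
        (1 - H.P t A v) = (1 - H.P t A v) * H.X t A v := by
      rw [← Finset.sum_mul, ← hX]
      ring
    have h4 : ∑ e ∈ (H.al A).filter (fun e => v ∉ H.inc e),
        H.p t A e * (H.X (t + 1 / H.n) (insert e A) v - H.X t A v) =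
        ∑ e ∈ (H.al A).filter (fun e => v ∉ H.inc e),
          H.p t A e * H.X (t + 1 / H.n) (insert e A) v -
        (∑ e ∈ (H.al A).filter (fun e => v ∉ H.inc e), H.p t A e) * H.X t A v := by
      rw [Finset.sum_mul, ← Finset.sum_sub_distrib]
      exact Finset.sum_congr rfl fun e _ => by ring
    rw [h4, h1, h2, ← h3, ← Finset.sum_sub_distrib]
    exact Finset.sum_congr rfl fun e _ => by ring
  rw [e1]
  refine (Finset.abs_sum_le_sum_abs _ _).trans ?_
  have ht1 : t ≤ 1 - H.τ := by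
    have := h.t1
    have : 0 < 1 / (H.n : ℝ) := by positivity
    linarith
  have hw : ∀ e' ∈ (H.al A).filter (fun e' => v ∈ H.inc e'), 0 ≤ (1 - t * H.s v) * H.w t e' := by
    intro e' he'
    have h2 := H.sig_bounds t h.t0 ht1 v
    exact mul_nonneg (by linarith [h2.1, h2.2.1])
      (H.w_bounds t h.t0 ht1 e' (H.NE_E (Finset.mem_filter.1 he').1)).1
  have h3 : ∀ e' ∈ (H.al A).filter (fun e' => v ∈ H.inc e'),
      |(1 - t * H.s v) * H.w t e' * ((∏ u ∈ (H.inc e').erase v, (1 + H.r t u)) *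
          ((1 - H.P t A v) - ∑ u ∈ (H.inc e').erase v, (H.P t A u - H.p t A e')) -
          (1 - H.P t A v))| ≤
      (1 - t * H.s v) * H.w t e' * (10 * ε / (H.n * (1 - t))) := by
    intro e' he'
    rw [abs_mul, abs_of_nonneg (hw e' he')]
    exact mul_le_mul_of_nonneg_left
      (H.X_rel t ε A h v e' (Finset.mem_filter.1 he').1 (Finset.mem_filter.1 he').2) (hw e' he')
  refine (Finset.sum_le_sum h3).trans ?_
  rw [← Finset.sum_mul, ← hX]
  have hε0 : 0 ≤ ε := by
    have := h.ε0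
    have := H.e0
    linarith
  have h4 : H.X t A v ≤ 9 / 8 := by
    have h5 := (abs_le.1 (h.hX v hv hv')).2
    have := H.s1 v
    have := h.ε8
    linarith
  have h5 : 0 ≤ 10 * ε / (H.n * (1 - t)) := by positivity
  refine (mul_le_mul_of_nonneg_right h4 h5).trans ?_
  have e4 : 12 * ε / (H.n * (1 - t)) = 12 / 10 * (10 * ε / (H.n * (1 - t))) := by ring
  rw [e4]
  exact mul_le_mul_of_nonneg_right (by norm_num) h5

end NH

end Pool.Agent.W_cd7020_h81n
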