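import Pool.Agent.W_cd7020_h81n.ND
import Pool.Agent.W_cd7020_h81n.NE

/-!
# The changes in one step
-/

set_option autoImplicit false

namespace Pool.Agent.W_cd7020_h81n

open Finset

theorem NF_biUnion {α β : Type*} [DecidableEq α] [DecidableEq β] (s : Finset α)
    (T : α → Finset β) (g : β → ℝ) (hg : ∀ a ∈ s, ∀ b ∈ T a, 0 ≤ g b) :
    ∑ b ∈ s.biUnion T, g b ≤ ∑ a ∈ s, ∑ b ∈ T a, g b := by
  induction s using Finset.induction_on with
  | empty => simp
  | insert a s ha ih =>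
    have h1 := ih fun a' ha' => hg a' (Finset.mem_insert_of_mem ha')
    have h2 : ∑ b ∈ T a ∪ s.biUnion T, g b + ∑ b ∈ T a ∩ s.biUnion T, g b =
        ∑ b ∈ T a, g b + ∑ b ∈ s.biUnion T, g b := Finset.sum_union_inter
    have h3 : 0 ≤ ∑ b ∈ T a ∩ s.biUnion T, g b := Finset.sum_nonneg fun b hb =>
      hg a (Finset.mem_insert_self a s) b (Finset.mem_inter.1 hb).1
    rw [Finset.biUnion_insert, Finset.sum_insert ha]
    linarith

namespace NH

variable {η N : Type*} [DecidableEq η] [DecidableEq N] (H : NH η N)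

theorem NF_prod (t : ℝ) (h0 : 0 ≤ t) (h1 : t + 1 / H.n ≤ 1 - H.τ) (S : Finset N) (m : ℕ)
    (hS : S.card ≤ m) (hm : m ≤ 3) :
    1 ≤ ∏ v ∈ S, (1 + H.r t v) ∧ ∏ v ∈ S, (1 + H.r t v) ≤ 1 + (m * H.ρ + 4 * H.ρ ^ 2) := by
  have hρ := H.rho_bounds
  obtain ⟨h2, h3⟩ := prod_bounds S (hS.trans hm) (H.r t) H.ρ
    (fun v _ => (H.r_bounds t h0 h1 v).1) (fun v _ => (H.r_bounds t h0 h1 v).2) hρ.2.2.2.1
  have h4 : 0 ≤ ∑ a ∈ S, H.r t a := Finset.sum_nonneg fun v _ => (H.r_bounds t h0 h1 v).1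
  have h5 : ∑ a ∈ S, H.r t a ≤ m * H.ρ := by
    calc ∑ a ∈ S, H.r t a ≤ ∑ _a ∈ S, H.ρ :=
          Finset.sum_le_sum fun v _ => (H.r_bounds t h0 h1 v).2
      _ = S.card * H.ρ := by rw [Finset.sum_const, nsmul_eq_mul]
      _ ≤ m * H.ρ := mul_le_mul_of_nonneg_right (by exact_mod_cast hS) hρ.1.le
  constructor <;> linarith

theorem NF_nbr {A : Finset η} {e : η} (he : e ∈ H.al A) {v : N} (hv : v ∈ H.inc e) :
    v ∈ H.E.biUnion H.inc ∧ v ∉ H.cov A := by
  have h1 := Finset.mem_filter.1 he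
  exact ⟨Finset.mem_biUnion.2 ⟨e, h1.1, hv⟩, fun h => Finset.disjoint_left.1 h1.2 hv h⟩

theorem NF_X_le (t ε : ℝ) (A : Finset η) (h : H.St t ε A) (v : N)
    (hv : v ∈ H.E.biUnion H.inc) (hv' : v ∉ H.cov A) : H.X t A v ≤ 9 / 8 := by
  have h1 := (abs_le.1 (h.hX v hv hv')).2
  have h2 := H.s1 v
  have h3 := h.ε8
  linarith

/-- `M_step`: the increase is at most `M (3 ρ + 4 ρ²) ≤ 6/5 n (304/100) ρ ≤ 4 / τ`
(`prod_bounds`, `r_bounds`); the decrease is at most the sum of the `w t e'` over the alive `e'` which meet `inc e`,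
at most `∑ v ∈ inc e, X v / (1 - t s v) ≤ 3 (9/8) / τ`. -/
theorem M_change (t ε : ℝ) (A : Finset η) (h : H.St t ε A) (f : η → ℝ) (hf0 : ∀ e, 0 ≤ f e)
    (hf1 : ∀ e, f e ≤ 1) (e : η) (he : e ∈ H.al A) :
    |H.M (t + 1 / H.n) (insert e A) f - H.M t A f| ≤ 4 / H.τ := by
  have hτ := H.τ0
  have hn := H.n_pos
  have ht := H.NA_t' h.t1
  have hρ := H.rho_bounds
  have hρn : H.ρ * H.n = 1 / H.τ := by
    unfold NH.ρ
    field_simp
  have hw : ∀ e' ∈ H.al A, 0 ≤ H.w t e' := fun e' he' =>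
    (H.w_bounds t h.t0 ht e' (Finset.mem_filter.1 he').1).1
  have hfw : ∀ e' ∈ H.al A, 0 ≤ f e' * H.w t e' := fun e' he' =>
    mul_nonneg (hf0 e') (hw e' he')
  rw [H.M_step t h.t0 h.t1 A e f]
  have hsplit : H.M t A f = ∑ e' ∈ (H.al A).filter (fun e' => Disjoint (H.inc e') (H.inc e)),
        f e' * H.w t e' + ∑ e' ∈ (H.al A).filter (fun e' => ¬ Disjoint (H.inc e') (H.inc e)),
        f e' * H.w t e' := by
    unfold NH.M
    rw [Finset.sum_filter_add_sum_filter_not]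
  have hD : ∑ e' ∈ (H.al A).filter (fun e' => Disjoint (H.inc e') (H.inc e)),
        f e' * H.w t e' * ∏ v ∈ H.inc e', (1 + H.r t v) ≤
      (1 + (3 * H.ρ + 4 * H.ρ ^ 2)) *
        ∑ e' ∈ (H.al A).filter (fun e' => Disjoint (H.inc e') (H.inc e)), f e' * H.w t e' := by
    rw [Finset.mul_sum]
    refine Finset.sum_le_sum fun e' he' => ?_
    have he'' := (Finset.mem_filter.1 he').1
    have h2 := (H.NF_prod t h.t0 h.t1 (H.inc e') 3
      (H.inc3 e' (Finset.mem_filter.1 he'').1) le_rfl).2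
    rw [mul_comm]
    push_cast at h2
    exact mul_le_mul_of_nonneg_right h2 (hfw e' he'')
  have hD' : ∑ e' ∈ (H.al A).filter (fun e' => Disjoint (H.inc e') (H.inc e)), f e' * H.w t e' ≤
      ∑ e' ∈ (H.al A).filter (fun e' => Disjoint (H.inc e') (H.inc e)),
        f e' * H.w t e' * ∏ v ∈ H.inc e', (1 + H.r t v) := by
    refine Finset.sum_le_sum fun e' he' => ?_
    have he'' := (Finset.mem_filter.1 he').1
    have h2 := (H.NF_prod t h.t0 h.t1 (H.inc e') 3
      (H.inc3 e' (Finset.mem_filter.1 he'').1) le_rfl).1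
    exact le_mul_of_one_le_right (hfw e' he'') h2
  have hN0 : 0 ≤ ∑ e' ∈ (H.al A).filter (fun e' => ¬ Disjoint (H.inc e') (H.inc e)),
      f e' * H.w t e' := Finset.sum_nonneg fun e' he' => hfw e' (Finset.mem_filter.1 he').1
  have hMle := (H.M_bounds t ε A h f hf0 hf1).2
  have hN : ∑ e' ∈ (H.al A).filter (fun e' => ¬ Disjoint (H.inc e') (H.inc e)),
      f e' * H.w t e' ≤ 27 / 8 / H.τ := by
    calc ∑ e' ∈ (H.al A).filter (fun e' => ¬ Disjoint (H.inc e') (H.inc e)), f e' * H.w t e'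
        ≤ ∑ e' ∈ (H.al A).filter (fun e' => ¬ Disjoint (H.inc e') (H.inc e)), H.w t e' := by
          refine Finset.sum_le_sum fun e' he' => ?_
          exact mul_le_of_le_one_left (hw e' (Finset.mem_filter.1 he').1) (hf1 e')
      _ ≤ ∑ v ∈ H.inc e, ∑ e' ∈ (H.al A).filter (fun e' => v ∈ H.inc e'), H.w t e' := by
          have h5 : (H.al A).filter (fun e' => ¬ Disjoint (H.inc e') (H.inc e)) ⊆
              (H.inc e).biUnion fun v => (H.al A).filter (fun e' => v ∈ H.inc e') := by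
            intro e' he'
            obtain ⟨h6, h7⟩ := Finset.mem_filter.1 he'
            rw [Finset.not_disjoint_iff] at h7
            obtain ⟨v, hv1, hv2⟩ := h7
            exact Finset.mem_biUnion.2 ⟨v, hv2, Finset.mem_filter.2 ⟨h6, hv1⟩⟩
          refine (Finset.sum_le_sum_of_subset_of_nonneg h5 fun e' he' _ => ?_).trans
            (NF_biUnion _ _ _ fun v _ e' he' => hw e' (Finset.mem_filter.1 he').1)
          obtain ⟨v, _, hv⟩ := Finset.mem_biUnion.1 he'
          exact hw e' (Finset.mem_filter.1 hv).1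
      _ ≤ ∑ v ∈ H.inc e, 9 / 8 / H.τ := by
          refine Finset.sum_le_sum fun v hv => ?_
          obtain ⟨h6, h7⟩ := H.NF_nbr he hv
          have h8 := H.NF_X_le t ε A h v h6 h7
          have h9 := H.sig_bounds t h.t0 ht v
          unfold NH.X at h8
          rw [le_div_iff₀ hτ]
          have h10 : 0 ≤ ∑ e' ∈ (H.al A).filter (fun e' => v ∈ H.inc e'), H.w t e' :=
            Finset.sum_nonneg fun e' he' => hw e' (Finset.mem_filter.1 he').1
          nlinarith [h9.1, h9.2.1]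
      _ ≤ 27 / 8 / H.τ := by
          rw [Finset.sum_const, nsmul_eq_mul]
          have h6 : ((H.inc e).card : ℝ) ≤ 3 := by
            exact_mod_cast H.inc3 e (Finset.mem_filter.1 he).1
          have h7 : 0 < 9 / 8 / H.τ := by positivity
          calc ((H.inc e).card : ℝ) * (9 / 8 / H.τ) ≤ 3 * (9 / 8 / H.τ) :=
                mul_le_mul_of_nonneg_right h6 h7.le
            _ = 27 / 8 / H.τ := by ring
  have hup : (3 * H.ρ + 4 * H.ρ ^ 2) *
      ∑ e' ∈ (H.al A).filter (fun e' => Disjoint (H.inc e') (H.inc e)), f e' * H.w t e' ≤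
        4 / H.τ := by
    have h6 : ∑ e' ∈ (H.al A).filter (fun e' => Disjoint (H.inc e') (H.inc e)),
        f e' * H.w t e' ≤ 6 / 5 * H.n := by linarith
    have h7 : 3 * H.ρ + 4 * H.ρ ^ 2 ≤ 304 / 100 * H.ρ := by nlinarith [hρ.1, hρ.2.2.2.1]
    have h8 : 0 ≤ 3 * H.ρ + 4 * H.ρ ^ 2 := by nlinarith [hρ.1]
    calc _ ≤ (304 / 100 * H.ρ) * (6 / 5 * H.n) :=
          mul_le_mul h7 h6 (Finset.sum_nonneg fun e' he' =>
            hfw e' (Finset.mem_filter.1 he').1) (by linarith [hρ.1])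
      _ = 456 / 125 * (H.ρ * H.n) := by ring
      _ = 456 / 125 * (1 / H.τ) := by rw [hρn]
      _ ≤ 4 * (1 / H.τ) := mul_le_mul_of_nonneg_right (by norm_num) (by positivity)
      _ = 4 / H.τ := by ring
  have hτ' : 27 / 8 / H.τ ≤ 4 / H.τ := div_le_div_of_nonneg_right (by norm_num) hτ.le
  rw [hsplit, abs_le]
  constructor <;> linarith

/-- `X_step`: the increase is at most `X (2 ρ + 4 ρ²) ≤ 7 / (n τ²)`; the decrease is at most the
sum of `(1 - t s v) w t e' ≤ 2 / (n τ²)` (`w_bound'`) over the alive `e'` which contain `v` and meet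
`inc e`: for every `u ∈ inc e` at most one of them contains `u` (`lin`, `u ≠ v`). -/
theorem X_change (t ε : ℝ) (A : Finset η) (h : H.St t ε A) (v : N)
    (hv : v ∈ H.E.biUnion H.inc) (hv' : v ∉ H.cov A) (e : η) (he : e ∈ H.al A)
    (hve : v ∉ H.inc e) :
    |H.X (t + 1 / H.n) (insert e A) v - H.X t A v| ≤ 7 / (H.n * H.τ ^ 2) := by
  have hτ := H.τ0
  have hn := H.n_pos
  have ht := H.NA_t' h.t1
  have hρ := H.rho_bounds
  have hpos : 0 < 1 / (H.n * H.τ ^ 2) := by positivity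
  have hρn : H.ρ ≤ 1 / (H.n * H.τ ^ 2) := by
    unfold NH.ρ
    refine div_le_div_of_nonneg_left zero_le_one (by positivity) ?_
    have h6 : H.τ ^ 2 ≤ H.τ := by nlinarith [H.τ1]
    exact mul_le_mul_of_nonneg_left h6 hn.le
  have hsig : 0 ≤ 1 - t * H.s v := (H.NA_pos h.t0 ht v).le
  have hw : ∀ e' ∈ H.al A, 0 ≤ (1 - t * H.s v) * H.w t e' := fun e' he' =>
    mul_nonneg hsig (H.w_bounds t h.t0 ht e' (Finset.mem_filter.1 he').1).1
  rw [H.X_step t h.t0 h.t1 A e v hve]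
  have hsplit : H.X t A v =
      ∑ e' ∈ (H.al A).filter (fun e' => v ∈ H.inc e' ∧ Disjoint (H.inc e') (H.inc e)),
        (1 - t * H.s v) * H.w t e' +
      ∑ e' ∈ (H.al A).filter (fun e' => v ∈ H.inc e' ∧ ¬ Disjoint (H.inc e') (H.inc e)),
        (1 - t * H.s v) * H.w t e' := by
    unfold NH.X
    rw [Finset.mul_sum, ← Finset.filter_filter, ← Finset.filter_filter,
      Finset.sum_filter_add_sum_filter_not]
  have hD : ∑ e' ∈ (H.al A).filter (fun e' => v ∈ H.inc e' ∧ Disjoint (H.inc e') (H.inc e)),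
        (1 - t * H.s v) * H.w t e' * ∏ u ∈ (H.inc e').erase v, (1 + H.r t u) ≤
      (1 + (2 * H.ρ + 4 * H.ρ ^ 2)) *
        ∑ e' ∈ (H.al A).filter (fun e' => v ∈ H.inc e' ∧ Disjoint (H.inc e') (H.inc e)),
          (1 - t * H.s v) * H.w t e' := by
    rw [Finset.mul_sum]
    refine Finset.sum_le_sum fun e' he' => ?_
    obtain ⟨he'', hve'⟩ := Finset.mem_filter.1 he'
    have hc : ((H.inc e').erase v).card ≤ 2 := by
      rw [Finset.card_erase_of_mem hve'.1]
      have := H.inc3 e' (Finset.mem_filter.1 he'').1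
      omega
    have h2 := (H.NF_prod t h.t0 h.t1 ((H.inc e').erase v) 2 hc (by norm_num)).2
    rw [mul_comm]
    push_cast at h2
    exact mul_le_mul_of_nonneg_right h2 (hw e' he'')
  have hD' : ∑ e' ∈ (H.al A).filter (fun e' => v ∈ H.inc e' ∧ Disjoint (H.inc e') (H.inc e)),
        (1 - t * H.s v) * H.w t e' ≤
      ∑ e' ∈ (H.al A).filter (fun e' => v ∈ H.inc e' ∧ Disjoint (H.inc e') (H.inc e)),
        (1 - t * H.s v) * H.w t e' * ∏ u ∈ (H.inc e').erase v, (1 + H.r t u) := by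
    refine Finset.sum_le_sum fun e' he' => ?_
    obtain ⟨he'', hve'⟩ := Finset.mem_filter.1 he'
    have hc : ((H.inc e').erase v).card ≤ 2 := by
      rw [Finset.card_erase_of_mem hve'.1]
      have := H.inc3 e' (Finset.mem_filter.1 he'').1
      omega
    have h2 := (H.NF_prod t h.t0 h.t1 ((H.inc e').erase v) 2 hc (by norm_num)).1
    exact le_mul_of_one_le_right (hw e' he'') h2
  have hN0 : 0 ≤ ∑ e' ∈ (H.al A).filter
      (fun e' => v ∈ H.inc e' ∧ ¬ Disjoint (H.inc e') (H.inc e)), (1 - t * H.s v) * H.w t e' :=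
    Finset.sum_nonneg fun e' he' => hw e' (Finset.mem_filter.1 he').1
  have hP0 : 0 ≤ ∑ e' ∈ (H.al A).filter
      (fun e' => v ∈ H.inc e' ∧ Disjoint (H.inc e') (H.inc e)), (1 - t * H.s v) * H.w t e' :=
    Finset.sum_nonneg fun e' he' => hw e' (Finset.mem_filter.1 he').1
  have hXle := H.NF_X_le t ε A h v hv hv'
  have hN : ∑ e' ∈ (H.al A).filter (fun e' => v ∈ H.inc e' ∧ ¬ Disjoint (H.inc e') (H.inc e)),
      (1 - t * H.s v) * H.w t e' ≤ 6 * (1 / (H.n * H.τ ^ 2)) := by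
    calc ∑ e' ∈ (H.al A).filter (fun e' => v ∈ H.inc e' ∧ ¬ Disjoint (H.inc e') (H.inc e)),
          (1 - t * H.s v) * H.w t e'
        ≤ ∑ u ∈ H.inc e, ∑ e' ∈ (H.al A).filter (fun e' => v ∈ H.inc e' ∧ u ∈ H.inc e'),
            (1 - t * H.s v) * H.w t e' := by
          have h5 : (H.al A).filter (fun e' => v ∈ H.inc e' ∧ ¬ Disjoint (H.inc e') (H.inc e)) ⊆
              (H.inc e).biUnion fun u =>
                (H.al A).filter (fun e' => v ∈ H.inc e' ∧ u ∈ H.inc e') := by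
            intro e' he'
            obtain ⟨h6, h8, h7⟩ := Finset.mem_filter.1 he'
            rw [Finset.not_disjoint_iff] at h7
            obtain ⟨u, hu1, hu2⟩ := h7
            exact Finset.mem_biUnion.2 ⟨u, hu2, Finset.mem_filter.2 ⟨h6, h8, hu1⟩⟩
          refine (Finset.sum_le_sum_of_subset_of_nonneg h5 fun e' he' _ => ?_).trans
            (NF_biUnion _ _ _ fun u _ e' he' => hw e' (Finset.mem_filter.1 he').1)
          obtain ⟨u, _, hu⟩ := Finset.mem_biUnion.1 he'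
          exact hw e' (Finset.mem_filter.1 hu).1
      _ ≤ ∑ u ∈ H.inc e, 2 / (H.n * H.τ ^ 2) := by
          refine Finset.sum_le_sum fun u hu => ?_
          have huv : u ≠ v := fun h1 => hve (h1 ▸ hu)
          have hcard : ((H.al A).filter (fun e' => v ∈ H.inc e' ∧ u ∈ H.inc e')).card ≤ 1 := by
            rw [Finset.card_le_one]
            intro a ha b hb
            obtain ⟨a1, a2, a3⟩ := Finset.mem_filter.1 ha
            obtain ⟨b1, b2, b3⟩ := Finset.mem_filter.1 hb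
            by_contra hab
            have h6 := H.lin a (Finset.mem_filter.1 a1).1 b (Finset.mem_filter.1 b1).1 hab
            have h7 : ({u, v} : Finset N) ⊆ H.inc a ∩ H.inc b := by
              intro z hz
              rw [Finset.mem_insert, Finset.mem_singleton] at hz
              rcases hz with rfl | rfl
              · exact Finset.mem_inter.2 ⟨a3, b3⟩
              · exact Finset.mem_inter.2 ⟨a2, b2⟩
            have h8 := Finset.card_le_card h7
            rw [Finset.card_pair huv] at h8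
            omega
          calc ∑ e' ∈ (H.al A).filter (fun e' => v ∈ H.inc e' ∧ u ∈ H.inc e'),
                (1 - t * H.s v) * H.w t e'
              ≤ ((H.al A).filter (fun e' => v ∈ H.inc e' ∧ u ∈ H.inc e')).card •
                  (2 / (H.n * H.τ ^ 2)) := by
                refine Finset.sum_le_card_nsmul _ _ _ fun e' he' => ?_
                obtain ⟨a1, a2, _⟩ := Finset.mem_filter.1 he'
                exact H.w_bound' t h.t0 ht e' (Finset.mem_filter.1 a1).1 v a2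
            _ ≤ 1 • (2 / (H.n * H.τ ^ 2)) :=
                nsmul_le_nsmul_left (by positivity) hcard
            _ = 2 / (H.n * H.τ ^ 2) := one_smul _ _
      _ ≤ 6 * (1 / (H.n * H.τ ^ 2)) := by
          rw [Finset.sum_const, nsmul_eq_mul]
          have h6 : ((H.inc e).card : ℝ) ≤ 3 := by
            exact_mod_cast H.inc3 e (Finset.mem_filter.1 he).1
          have h7 : 0 < 2 / (H.n * H.τ ^ 2) := by positivity
          calc ((H.inc e).card : ℝ) * (2 / (H.n * H.τ ^ 2)) ≤ 3 * (2 / (H.n * H.τ ^ 2)) :=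
                mul_le_mul_of_nonneg_right h6 h7.le
            _ = 6 * (1 / (H.n * H.τ ^ 2)) := by ring
  have hup : (2 * H.ρ + 4 * H.ρ ^ 2) *
      ∑ e' ∈ (H.al A).filter (fun e' => v ∈ H.inc e' ∧ Disjoint (H.inc e') (H.inc e)),
        (1 - t * H.s v) * H.w t e' ≤ 7 * (1 / (H.n * H.τ ^ 2)) := by
    have h6 : ∑ e' ∈ (H.al A).filter (fun e' => v ∈ H.inc e' ∧ Disjoint (H.inc e') (H.inc e)),
        (1 - t * H.s v) * H.w t e' ≤ 9 / 8 := by linarith
    have h7 : 2 * H.ρ + 4 * H.ρ ^ 2 ≤ 204 / 100 * H.ρ := by nlinarith [hρ.1, hρ.2.2.2.1]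
    calc _ ≤ (204 / 100 * H.ρ) * (9 / 8) :=
          mul_le_mul h7 h6 hP0 (by linarith [hρ.1])
      _ ≤ 7 * (1 / (H.n * H.τ ^ 2)) := by linarith [hρ.1]
  have h7 : 7 / (H.n * H.τ ^ 2) = 7 * (1 / (H.n * H.τ ^ 2)) := by ring
  rw [hsplit, h7, abs_le]
  constructor <;> linarith

/-- `|f e - M₀ / n| ≤ 2` (`M₀_bounds`). -/
theorem T_change (f : η → ℝ) (hf0 : ∀ e, 0 ≤ f e) (hf1 : ∀ e, f e ≤ 1) (e : η) :
    |f e - H.M₀ f / H.n| ≤ 2 := by
  have hn := H.n_pos
  obtain ⟨h1, h2⟩ := H.M₀_bounds f hf0 hf1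
  have h3 : 0 ≤ H.M₀ f / H.n := div_nonneg h1 hn.le
  have h4 : H.M₀ f / H.n ≤ 17 / 16 := by
    rw [div_le_iff₀ hn]
    exact h2
  have h5 := hf0 e
  have h6 := hf1 e
  rw [abs_le]
  constructor <;> linarith

end NH

end Pool.Agent.W_cd7020_h81n
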