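import Pool.Agent.W_cd7020_h81n.NDefs
import Pool.Agent.W_cd7020_h81n.NCosh
import Pool.Agent.W_cd7020_h81n.NA

/-!
# The potential and the bounds
-/

set_option autoImplicit false

namespace Pool.Agent.W_cd7020_h81n

open Finset

namespace NH

variable {η N : Type*} [DecidableEq η] [DecidableEq N] (H : NH η N)

/-- `er i = e₀ / (1 - i / n)^96` is between `e₀` and `1/8` for `i / n ≤ 1 - τ`. -/
theorem er_bounds (i : ℕ) (hi : (i : ℝ) / H.n ≤ 1 - H.τ) :
    H.e₀ ≤ H.er i ∧ H.er i ≤ H.e₀ / H.τ ^ 96 ∧ H.er i ≤ 1 / 8 := by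
  have hn0 := H.n_pos
  have ht := H.τ0
  have he := H.e0
  have h0 : 0 ≤ (i : ℝ) / H.n := by positivity
  set a : ℝ := 1 - (i : ℝ) / H.n with ha
  have ha1 : a ≤ 1 := by linarith
  have ha2 : H.τ ≤ a := by linarith
  have ha0 : 0 < a := by linarith
  have hp : a ^ 96 ≤ 1 := pow_le_one₀ ha0.le ha1
  have hp0 : 0 < a ^ 96 := by positivity
  have h2 : H.er i ≤ H.e₀ / H.τ ^ 96 := by
    unfold NH.er
    rw [← ha]
    gcongr
  refine ⟨?_, h2, h2.trans ?_⟩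
  · unfold NH.er
    rw [← ha, le_div_iff₀ hp0]
    nlinarith
  · rw [div_le_iff₀ (by positivity)]
    have := H.e8
    linarith

/-- `er i / er (i + 1) = (1 - x) ^ 96` for `x = 1 / (n (1 - i / n))`, and `geo_bounds`
(`x ≤ ρ ≤ 1 / 96`). -/
theorem er_step (i : ℕ) (hi : ((i : ℝ) + 1) / H.n ≤ 1 - H.τ) :
    H.er i ≤ H.er (i + 1) ∧
      48 * (1 / (H.n * (1 - (i : ℝ) / H.n))) ≤ 1 - H.er i / H.er (i + 1) ∧
      1 - H.er i / H.er (i + 1) ≤ 96 * (1 / (H.n * (1 - (i : ℝ) / H.n))) := by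
  have hn0 := H.n_pos
  have ht := H.τ0
  have he := H.e0
  have h0 : 0 ≤ (i : ℝ) / H.n := by positivity
  have hn1 : 0 < 1 / (H.n : ℝ) := by positivity
  have hsum : ((i : ℝ) + 1) / H.n = (i : ℝ) / H.n + 1 / H.n := by ring
  set a : ℝ := 1 - (i : ℝ) / H.n with ha
  set b : ℝ := 1 - ((i : ℝ) + 1) / H.n with hb
  have hb0 : H.τ ≤ b := by linarith
  have hbpos : 0 < b := by linarith
  have hab : b ≤ a := by linarith
  have hapos : 0 < a := by linarith
  have haτ : H.τ ≤ a := by linarith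
  have e1 : H.er i = H.e₀ / a ^ 96 := rfl
  have e2 : H.er (i + 1) = H.e₀ / b ^ 96 := by
    unfold NH.er
    rw [hb]
    push_cast
    rfl
  set x : ℝ := 1 / (H.n * a) with hx
  have hx0 : 0 ≤ x := by positivity
  have hx1 : x ≤ 1 / 96 := by
    have h3 := H.rho_bounds.2.2.2.2
    refine le_trans ?_ h3
    rw [hx]
    unfold NH.ρ
    gcongr
  have hrat : H.er i / H.er (i + 1) = (1 - x) ^ 96 := by
    rw [e1, e2]
    have h4 : 1 - x = b / a := by
      rw [hx]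
      have : b = a - 1 / H.n := by linarith
      rw [this]
      field_simp
    rw [h4, div_pow]
    field_simp
  have hg := geo_bounds x hx0 hx1
  refine ⟨?_, ?_, ?_⟩
  · rw [e1, e2]
    gcongr
  · rw [hrat]
    exact hg.1
  · rw [hrat]
    exact hg.2

theorem NG_lt (lam y : ℝ) (hlam : 0 < lam) (h : Real.cosh (lam * y) < Real.cosh lam) :
    |y| < 1 := by
  rw [Real.cosh_lt_cosh, abs_mul, abs_of_pos hlam] at h
  nlinarith

theorem NG_cosh_nonneg (x : ℝ) : 0 ≤ Real.cosh x := (Real.cosh_pos x).le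

/-- A small potential gives the bounds: each summand `cosh (lam y)` is less than `cosh lam`, so
`|y| < 1`; for `Z` use the index `i₀` with `f i₀ = 1` and `tot`. -/
theorem st_of_Φ (lam : ℝ) (hlam : 0 < lam) {ι : Type*} (I : Finset ι) (f : ι → η → ℝ)
    (i₀ : ι) (hi₀ : i₀ ∈ I) (hf : ∀ e, f i₀ e = 1) (i : ℕ) (hi : ((i : ℝ) + 1) / H.n ≤ 1 - H.τ)
    (A : Finset η) (hΦ : H.Φ lam I f (i / H.n) (H.er i) A < Real.cosh lam) :
    H.St (i / H.n) (H.er i) A ∧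
      ∀ j ∈ I, |H.M (i / H.n) A (f j) - H.M₀ (f j)| ≤ H.er i * H.n := by
  have hn0 := H.n_pos
  have he := H.e0
  have hn1 : 0 < 1 / (H.n : ℝ) := by positivity
  have hsum : ((i : ℝ) + 1) / H.n = (i : ℝ) / H.n + 1 / H.n := by ring
  have hi' : (i : ℝ) / H.n ≤ 1 - H.τ := by linarith
  obtain ⟨hr0, -, hr8⟩ := H.er_bounds i hi'
  have hr : 0 < H.er i := by linarith
  unfold NH.Φ at hΦ
  set S1 : ℝ := ∑ v ∈ H.E.biUnion H.inc \ H.cov A,
    Real.cosh (lam * ((H.X (i / H.n) A v - H.s v) / H.er i)) with hS1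
  set S2 : ℝ := ∑ j ∈ I, Real.cosh (lam * ((H.M (i / H.n) A (f j) - H.M₀ (f j)) / H.n / H.er i))
    with hS2
  set S3 : ℝ := ∑ j ∈ I, Real.cosh (lam * ((∑ e ∈ A, f j e - i / H.n * H.M₀ (f j)) / H.n /
    H.er i)) with hS3
  have h1 : 0 ≤ S1 := Finset.sum_nonneg (fun _ _ => NG_cosh_nonneg _)
  have h2 : 0 ≤ S2 := Finset.sum_nonneg (fun _ _ => NG_cosh_nonneg _)
  have h3 : 0 ≤ S3 := Finset.sum_nonneg (fun _ _ => NG_cosh_nonneg _)
  have hM : ∀ j ∈ I, |H.M (i / H.n) A (f j) - H.M₀ (f j)| ≤ H.er i * H.n := by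
    intro j hj
    have h4 : Real.cosh (lam * ((H.M (i / H.n) A (f j) - H.M₀ (f j)) / H.n / H.er i)) ≤ S2 :=
      Finset.single_le_sum (f := fun j => Real.cosh (lam * ((H.M (i / H.n) A (f j) -
        H.M₀ (f j)) / H.n / H.er i))) (fun _ _ => NG_cosh_nonneg _) hj
    have h5 := NG_lt lam _ hlam (by linarith :
      Real.cosh (lam * ((H.M (i / H.n) A (f j) - H.M₀ (f j)) / H.n / H.er i)) < Real.cosh lam)
    rw [abs_div, abs_div, abs_of_pos hr, abs_of_pos hn0, div_lt_one hr, div_lt_iff₀ hn0] at h5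
    exact h5.le
  refine ⟨⟨by positivity, by linarith, hr0, hr8, ?_, ?_⟩, hM⟩
  · intro v hv hv'
    have h4 : Real.cosh (lam * ((H.X (i / H.n) A v - H.s v) / H.er i)) ≤ S1 :=
      Finset.single_le_sum (f := fun v => Real.cosh (lam * ((H.X (i / H.n) A v - H.s v) /
        H.er i))) (fun _ _ => NG_cosh_nonneg _) (Finset.mem_sdiff.mpr ⟨hv, hv'⟩)
    have h5 := NG_lt lam _ hlam (by linarith :
      Real.cosh (lam * ((H.X (i / H.n) A v - H.s v) / H.er i)) < Real.cosh lam)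
    rw [abs_div, abs_of_pos hr, div_lt_one hr] at h5
    exact h5.le
  · have h6 := hM i₀ hi₀
    have hf' : f i₀ = fun _ => 1 := funext hf
    rw [hf'] at h6
    have h7 : H.M₀ (fun _ => 1) = ∑ e ∈ H.E, H.ω e := by
      simp [NH.M₀]
    have h8 := H.tot
    rw [← h7] at h8
    have h9 : H.Z (i / H.n) A - H.n =
        (H.M (i / H.n) A (fun _ => 1) - H.M₀ (fun _ => 1)) + (H.M₀ (fun _ => 1) - H.n) := by
      unfold NH.Z
      ring
    rw [h9]
    refine (abs_add_le _ _).trans ?_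
    have h10 : H.e₀ / 2 * H.n ≤ H.er i / 2 * H.n := by gcongr
    linarith

/-- The bounds on the sums over `A` (also at the last time). -/
theorem T_of_Φ (lam : ℝ) (hlam : 0 < lam) {ι : Type*} (I : Finset ι) (f : ι → η → ℝ)
    (i : ℕ) (hi : (i : ℝ) / H.n ≤ 1 - H.τ) (A : Finset η)
    (hΦ : H.Φ lam I f (i / H.n) (H.er i) A < Real.cosh lam) (j : ι) (hj : j ∈ I) :
    |∑ e ∈ A, f j e - i / H.n * H.M₀ (f j)| ≤ H.er i * H.n := by
  have hn0 := H.n_pos
  have he := H.e0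
  obtain ⟨hr0, -, hr8⟩ := H.er_bounds i hi
  have hr : 0 < H.er i := by linarith
  unfold NH.Φ at hΦ
  have h1 : 0 ≤ ∑ v ∈ H.E.biUnion H.inc \ H.cov A,
    Real.cosh (lam * ((H.X (i / H.n) A v - H.s v) / H.er i)) :=
      Finset.sum_nonneg (fun _ _ => NG_cosh_nonneg _)
  have h2 : 0 ≤ ∑ j ∈ I, Real.cosh (lam * ((H.M (i / H.n) A (f j) - H.M₀ (f j)) / H.n /
    H.er i)) := Finset.sum_nonneg (fun _ _ => NG_cosh_nonneg _)
  have h4 : Real.cosh (lam * ((∑ e ∈ A, f j e - i / H.n * H.M₀ (f j)) / H.n / H.er i)) ≤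
      ∑ j ∈ I, Real.cosh (lam * ((∑ e ∈ A, f j e - i / H.n * H.M₀ (f j)) / H.n / H.er i)) :=
    Finset.single_le_sum (f := fun j => Real.cosh (lam * ((∑ e ∈ A, f j e -
      i / H.n * H.M₀ (f j)) / H.n / H.er i))) (fun _ _ => NG_cosh_nonneg _) hj
  have h5 := NG_lt lam _ hlam (by linarith :
    Real.cosh (lam * ((∑ e ∈ A, f j e - i / H.n * H.M₀ (f j)) / H.n / H.er i)) < Real.cosh lam)
  rw [abs_div, abs_div, abs_of_pos hr, abs_of_pos hn0, div_lt_one hr, div_lt_iff₀ hn0] at h5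
  exact h5.le

end NH

end Pool.Agent.W_cd7020_h81n
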