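import Pool.Agent.W_cd7020_h81n.NGa

/-!
# The third sum of the potential
-/

set_option autoImplicit false

namespace Pool.Agent.W_cd7020_h81n

open Finset

namespace NH

variable {η N : Type*} [DecidableEq η] [DecidableEq N] (H : NH η N)

/-- The third sum of the potential: `pot_one` with `S = al A`, `D = (∑ A - t M₀) / n`; `T_drift`,
`T_change`; `e ∈ al A` is not in `A` because `inc e` is nonempty. -/
theorem pot_T (lam : ℝ) (hlam : 0 < lam) {ι : Type*} (I : Finset ι) (f : ι → η → ℝ)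
    (hf0 : ∀ j ∈ I, ∀ e, 0 ≤ f j e) (hf1 : ∀ j ∈ I, ∀ e, f j e ≤ 1) (i : ℕ)
    (hi : ((i : ℝ) + 1) / H.n ≤ 1 - H.τ) (A : Finset η) (h : H.St (i / H.n) (H.er i) A)
    (hM : ∀ j ∈ I, |H.M (i / H.n) A (f j) - H.M₀ (f j)| ≤ H.er i * H.n)
    (hT : ∀ j ∈ I, |∑ e ∈ A, f j e - i / H.n * H.M₀ (f j)| ≤ H.er i * H.n) (hh : ℝ)
    (hhh : hh = 7 / (H.n * H.τ ^ 2 * H.e₀) + 96 / (H.n * H.τ)) (hlh : lam * hh ≤ 1) :
    ∑ e ∈ H.al A, H.p (i / H.n) A e * ∑ j ∈ I,
        Real.cosh (lam * ((∑ e' ∈ insert e A, f j e' - (i / H.n + 1 / H.n) * H.M₀ (f j)) / H.n /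
          H.er (i + 1))) ≤
      (∑ j ∈ I, Real.cosh (lam * ((∑ e' ∈ A, f j e' - i / H.n * H.M₀ (f j)) / H.n / H.er i))) *
          (1 + (lam * hh) ^ 2) +
        I.card * (6 * lam * Real.exp (lam / 2) / (H.n * H.τ)) := by
  have hn := H.n_pos
  have hτ := H.τ0
  have hpp : 0 < H.er i := lt_of_lt_of_le H.e0 h.ε0
  have ht1 : (i : ℝ) / H.n + 1 / H.n ≤ 1 - H.τ := h.t1
  have h1n : 0 < 1 / (H.n : ℝ) := by positivity
  have hti : 0 < 1 - (i : ℝ) / H.n := by linarith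
  have hti1 : 1 - (i : ℝ) / H.n ≤ 1 := by
    have := h.t0
    linarith
  have hsum : ∑ e ∈ H.al A, H.p (i / H.n) A e * ∑ j ∈ I,
        Real.cosh (lam * ((∑ e' ∈ insert e A, f j e' - (i / H.n + 1 / H.n) * H.M₀ (f j)) / H.n /
          H.er (i + 1))) = ∑ j ∈ I, ∑ e ∈ H.al A, H.p (i / H.n) A e *
        Real.cosh (lam * ((∑ e' ∈ insert e A, f j e' - (i / H.n + 1 / H.n) * H.M₀ (f j)) / H.n /
          H.er (i + 1))) := by
    rw [Finset.sum_comm]
    exact Finset.sum_congr rfl fun e _ => Finset.mul_sum _ _ _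
  rw [hsum]
  refine NGa_sum I _ _ _ _ fun j hj => ?_
  have hnot : ∀ e ∈ H.al A, e ∉ A := by
    intro e he heA
    have h1 := Finset.mem_filter.1 he
    obtain ⟨v, hv⟩ := H.inc1 e h1.1
    exact Finset.disjoint_left.1 h1.2 hv (Finset.mem_biUnion.2 ⟨e, heA, hv⟩)
  have hdiff : ∀ e ∈ H.al A,
      (∑ e' ∈ insert e A, f j e' - (i / H.n + 1 / H.n) * H.M₀ (f j)) / H.n -
        (∑ e' ∈ A, f j e' - i / H.n * H.M₀ (f j)) / H.n =
      (f j e - H.M₀ (f j) / H.n) / H.n := by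
    intro e he
    rw [Finset.sum_insert (hnot e he)]
    ring
  refine H.NGa_gen lam hlam i hi hh hhh hlh (H.al A) (H.p (i / H.n) A)
    (fun e he => (H.p_bounds _ _ A h e he).1) (H.p_sum _ _ A h).le
    (by rw [H.p_sum _ _ A h]; norm_num)
    ((∑ e' ∈ A, f j e' - i / H.n * H.M₀ (f j)) / H.n)
    (fun e => (∑ e' ∈ insert e A, f j e' - (i / H.n + 1 / H.n) * H.M₀ (f j)) / H.n) ?_ ?_ ?_
  · intro e he
    rw [hdiff e he, abs_div, abs_of_pos hn]
    have h2 := H.T_change (f j) (hf0 j hj) (hf1 j hj) e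
    calc |f j e - H.M₀ (f j) / H.n| / H.n ≤ 2 / H.n := div_le_div_of_nonneg_right h2 hn.le
      _ ≤ 7 / H.n := div_le_div_of_nonneg_right (by norm_num) hn.le
      _ ≤ 7 / (H.n * H.τ ^ 2) := by
          refine div_le_div_of_nonneg_left (by norm_num) (by positivity) ?_
          have h3 : H.τ ^ 2 ≤ 1 := pow_le_one₀ hτ.le H.τ1
          nlinarith
  · have h2 := H.T_drift _ _ A h (f j) (hf0 j hj) (hf1 j hj) (hM j hj)
    rw [Finset.sum_congr rfl fun e he => by rw [hdiff e he]]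
    have h3 : ∑ e ∈ H.al A, H.p (i / H.n) A e * ((f j e - H.M₀ (f j) / H.n) / H.n) =
        (∑ e ∈ H.al A, H.p (i / H.n) A e * (f j e - H.M₀ (f j) / H.n)) / H.n := by
      rw [Finset.sum_div]
      exact Finset.sum_congr rfl fun e _ => by ring
    rw [h3, abs_div, abs_of_pos hn]
    calc |∑ e ∈ H.al A, H.p (i / H.n) A e * (f j e - H.M₀ (f j) / H.n)| / H.n
        ≤ 4 * H.er i / H.n := div_le_div_of_nonneg_right h2 hn.le
      _ ≤ 12 * H.er i / H.n := div_le_div_of_nonneg_right (by linarith) hn.le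
      _ ≤ 12 * H.er i / (H.n * (1 - (i : ℝ) / H.n)) := by
          refine div_le_div_of_nonneg_left (by positivity) (by positivity) ?_
          exact mul_le_of_le_one_right hn.le hti1
  · rw [abs_div, abs_of_pos hn, div_le_iff₀ hn]
    exact hT j hj

end NH

end Pool.Agent.W_cd7020_h81n
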