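import Pool.Agent.W_cd7020_h81n.NGX
import Pool.Agent.W_cd7020_h81n.NGM
import Pool.Agent.W_cd7020_h81n.NGT

/-!
# The potential in one step
-/

set_option autoImplicit false

namespace Pool.Agent.W_cd7020_h81n

open Finset

namespace NH

variable {η N : Type*} [DecidableEq η] [DecidableEq N] (H : NH η N)

/-- The average cost. -/
theorem NGS_cost (t ε : ℝ) (A : Finset η) (h : H.St t ε A) (cost : η → ℝ)
    (hc0 : ∀ e ∈ H.E, 0 ≤ cost e) (c₀ : ℝ) (hc : ∑ e ∈ H.al A, H.ω e * cost e ≤ c₀) :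
    ∑ e ∈ H.al A, H.p t A e * cost e ≤ 5 / 4 * c₀ / (H.n * H.τ ^ 3) := by
  have hn := H.n_pos
  have hτ := H.τ0
  obtain ⟨hZ, _⟩ := H.Z_bounds t ε A h
  have hZ0 : 0 < H.Z t A := lt_of_lt_of_le (by positivity) hZ
  have h1n : 0 < 1 / (H.n : ℝ) := by positivity
  have ht1 : t ≤ 1 - H.τ := by
    have := h.t1
    linarith
  have hE : ∀ e ∈ H.al A, e ∈ H.E := fun e he => (Finset.mem_filter.1 he).1
  have hw : ∀ e ∈ H.al A, H.p t A e * cost e ≤ H.ω e * cost e * (5 / 4 / (H.n * H.τ ^ 3)) := by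
    intro e he
    have hprod : H.τ ^ 3 ≤ ∏ v ∈ H.inc e, (1 - t * H.s v) := by
      have h2 : H.τ ^ (H.inc e).card ≤ ∏ v ∈ H.inc e, (1 - t * H.s v) := by
        rw [← Finset.prod_const]
        refine Finset.prod_le_prod (fun _ _ => hτ.le) fun v _ => ?_
        obtain ⟨a1, a2, _⟩ := H.sig_bounds t h.t0 ht1 v
        linarith
      exact (pow_le_pow_of_le_one hτ.le H.τ1 (H.inc3 e (hE e he))).trans h2
    have hω := H.ω0 e (hE e he)
    have hce := hc0 e (hE e he)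
    have h3 : H.p t A e ≤ H.ω e * (5 / 4 / (H.n * H.τ ^ 3)) := by
      unfold p w
      rw [div_div]
      have h4 : H.τ ^ 3 * (4 / 5 * H.n) ≤ (∏ v ∈ H.inc e, (1 - t * H.s v)) * H.Z t A :=
        mul_le_mul hprod hZ (by positivity) (le_trans (by positivity) hprod)
      refine (div_le_div_of_nonneg_left hω (by positivity) h4).trans (le_of_eq ?_)
      field_simp
    calc H.p t A e * cost e ≤ H.ω e * (5 / 4 / (H.n * H.τ ^ 3)) * cost e :=
          mul_le_mul_of_nonneg_right h3 hce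
      _ = _ := by ring
  refine (Finset.sum_le_sum hw).trans ?_
  rw [← Finset.sum_mul]
  refine (mul_le_mul_of_nonneg_right hc (by positivity)).trans (le_of_eq ?_)
  ring

/-- Averaging. -/
theorem NGS_avg {σ : Type*} (S : Finset σ) (p F : σ → ℝ) (hp0 : ∀ u ∈ S, 0 ≤ p u)
    (hp1 : ∑ u ∈ S, p u = 1) (B : ℝ) (h : ∑ u ∈ S, p u * F u ≤ B) : ∃ u ∈ S, F u ≤ B := by
  by_contra hcon
  push Not at hcon
  have h1 : ∃ u ∈ S, 0 < p u := by
    by_contra h2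
    push Not at h2
    have : ∑ u ∈ S, p u ≤ 0 := Finset.sum_nonpos h2
    linarith
  obtain ⟨u, hu, hpu⟩ := h1
  have h3 : ∑ u ∈ S, p u * B < ∑ u ∈ S, p u * F u :=
    Finset.sum_lt_sum (fun v hv => mul_le_mul_of_nonneg_left (hcon v hv).le (hp0 v hv))
      ⟨u, hu, mul_lt_mul_of_pos_left (hcon u hu) hpu⟩
  rw [← Finset.sum_mul, hp1, one_mul] at h3
  linarith

/-- The step: the average over `e ∈ al A` with the probabilities `p e` (`p_sum`, `p_bounds`) of the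
new potential plus `κ` times the cost is at most the right side (`pot_X`, `pot_M`, `pot_T`;
`∑ p cost ≤ ∑ ω cost / (τ³ Z) ≤ 5/4 c₀ / (n τ³)`). -/
theorem pot_step (lam : ℝ) (hlam : 0 < lam) {ι : Type*} (I : Finset ι) (f : ι → η → ℝ)
    (hf0 : ∀ j ∈ I, ∀ e, 0 ≤ f j e) (hf1 : ∀ j ∈ I, ∀ e, f j e ≤ 1)
    (i₀ : ι) (hi₀ : i₀ ∈ I) (hf : ∀ e, f i₀ e = 1) (i : ℕ)
    (hi : ((i : ℝ) + 1) / H.n ≤ 1 - H.τ) (A : Finset η)
    (hΦ : H.Φ lam I f (i / H.n) (H.er i) A < Real.cosh lam) (cost : η → ℝ)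
    (hc0 : ∀ e ∈ H.E, 0 ≤ cost e) (c₀ κ : ℝ) (hκ : 0 ≤ κ)
    (hc : ∑ e ∈ H.al A, H.ω e * cost e ≤ c₀) (hh : ℝ)
    (hhh : hh = 7 / (H.n * H.τ ^ 2 * H.e₀) + 96 / (H.n * H.τ)) (hlh : lam * hh ≤ 1) :
    ∃ e ∈ H.al A, H.Φ lam I f ((i + 1 : ℕ) / H.n) (H.er (i + 1)) (insert e A) + κ * cost e ≤
      H.Φ lam I f (i / H.n) (H.er i) A * (1 + (lam * hh) ^ 2) +
        ((H.E.biUnion H.inc).card + 2 * I.card) * (6 * lam * Real.exp (lam / 2) / (H.n * H.τ)) +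
        κ * (5 / 4 * c₀ / (H.n * H.τ ^ 3)) := by
  obtain ⟨h, hM⟩ := H.st_of_Φ lam hlam I f i₀ hi₀ hf i hi A hΦ
  have hn := H.n_pos
  have h1n : 0 < 1 / (H.n : ℝ) := by positivity
  have hin : (i : ℝ) / H.n ≤ 1 - H.τ := by
    have := h.t1
    linarith
  have hT : ∀ j ∈ I, |∑ e ∈ A, f j e - i / H.n * H.M₀ (f j)| ≤ H.er i * H.n := fun j hj =>
    H.T_of_Φ lam hlam I f i hin A hΦ j hj
  have ht : (((i + 1 : ℕ) : ℝ)) / H.n = (i : ℝ) / H.n + 1 / H.n := by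
    push_cast
    ring
  refine NGS_avg (H.al A) (H.p (i / H.n) A) _ (fun e he => (H.p_bounds _ _ A h e he).1)
    (H.p_sum _ _ A h) _ ?_
  have kX := H.pot_X lam hlam i hi A h hh hhh hlh
  have kM := H.pot_M lam hlam I f hf0 hf1 i hi A h hM hh hhh hlh
  have kT := H.pot_T lam hlam I f hf0 hf1 i hi A h hM hT hh hhh hlh
  have kC := H.NGS_cost _ _ A h cost hc0 c₀ hc
  have kC' := mul_le_mul_of_nonneg_left kC hκ
  rw [ht]
  unfold Φ
  simp only [mul_add, Finset.sum_add_distrib]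
  have e1 : ∑ e ∈ H.al A, H.p (i / H.n) A e * (κ * cost e) =
      κ * ∑ e ∈ H.al A, H.p (i / H.n) A e * cost e := by
    rw [Finset.mul_sum]
    exact Finset.sum_congr rfl fun e _ => by ring
  rw [e1]
  have e2 : ∀ a b c q : ℝ, (a + b + c) * (1 + q) = a * (1 + q) + b * (1 + q) + c * (1 + q) :=
    fun a b c q => by ring
  linarith

end NH

end Pool.Agent.W_cd7020_h81n
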