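import Pool.Agent.W_cd7020_h81n.NGa

/-!
# The first sum of the potential
-/

set_option autoImplicit false

namespace Pool.Agent.W_cd7020_h81n

open Finset

namespace NH

variable {η N : Type*} [DecidableEq η] [DecidableEq N] (H : NH η N)

/-- The first sum of the potential: exchange the sums, `pot_one` for every uncovered `v` with
`S = {e alive, v ∉ inc e}` (total `1 - P v ≥ 1/2`), `D = X v - s v`, `b = 7 / (n τ²)`,
`x = 1 / (n (1 - i / n))`; `X_drift`, `X_change`, `er_step`. -/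
theorem pot_X (lam : ℝ) (hlam : 0 < lam) (i : ℕ) (hi : ((i : ℝ) + 1) / H.n ≤ 1 - H.τ)
    (A : Finset η) (h : H.St (i / H.n) (H.er i) A) (hh : ℝ)
    (hhh : hh = 7 / (H.n * H.τ ^ 2 * H.e₀) + 96 / (H.n * H.τ)) (hlh : lam * hh ≤ 1) :
    ∑ e ∈ H.al A, H.p (i / H.n) A e * ∑ v ∈ H.E.biUnion H.inc \ H.cov (insert e A),
        Real.cosh (lam * ((H.X (i / H.n + 1 / H.n) (insert e A) v - H.s v) / H.er (i + 1))) ≤
      (∑ v ∈ H.E.biUnion H.inc \ H.cov A,
          Real.cosh (lam * ((H.X (i / H.n) A v - H.s v) / H.er i))) * (1 + (lam * hh) ^ 2) +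
        (H.E.biUnion H.inc).card * (6 * lam * Real.exp (lam / 2) / (H.n * H.τ)) := by
  have hn := H.n_pos
  have hτ := H.τ0
  have hsum : ∑ e ∈ H.al A, H.p (i / H.n) A e * ∑ v ∈ H.E.biUnion H.inc \ H.cov (insert e A),
        Real.cosh (lam * ((H.X (i / H.n + 1 / H.n) (insert e A) v - H.s v) / H.er (i + 1))) =
      ∑ v ∈ H.E.biUnion H.inc \ H.cov A, ∑ e ∈ (H.al A).filter (fun e => v ∉ H.inc e),
        H.p (i / H.n) A e *
        Real.cosh (lam * ((H.X (i / H.n + 1 / H.n) (insert e A) v - H.s v) / H.er (i + 1))) := by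
    simp only [Finset.mul_sum]
    refine Finset.sum_comm' fun e v => ?_
    rw [Finset.mem_sdiff, Finset.mem_sdiff, Finset.mem_filter, H.cov_insert, Finset.mem_union]
    tauto
  rw [hsum]
  have hcard : (((H.E.biUnion H.inc \ H.cov A).card : ℕ) : ℝ) ≤ ((H.E.biUnion H.inc).card : ℝ) := by
    exact_mod_cast Finset.card_le_card Finset.sdiff_subset
  have hc0 : 0 ≤ 6 * lam * Real.exp (lam / 2) / (H.n * H.τ) := by positivity
  refine (NGa_sum (H.E.biUnion H.inc \ H.cov A) _ (fun v =>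
    Real.cosh (lam * ((H.X (i / H.n) A v - H.s v) / H.er i))) (1 + (lam * hh) ^ 2)
    (6 * lam * Real.exp (lam / 2) / (H.n * H.τ)) fun v hv => ?_).trans
    (add_le_add_right (mul_le_mul_of_nonneg_right hcard hc0) _)
  obtain ⟨hv1, hv2⟩ := Finset.mem_sdiff.1 hv
  have hP := H.P_bounds _ _ A h v hv1 hv2
  have hps := H.p_sum' _ _ A h v
  obtain ⟨_, _, _, hρ, _⟩ := H.rho_bounds
  have hdiff : ∀ e : η,
      H.X (i / H.n + 1 / H.n) (insert e A) v - H.s v - (H.X (i / H.n) A v - H.s v) =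
      H.X (i / H.n + 1 / H.n) (insert e A) v - H.X (i / H.n) A v := by
    intro e
    ring
  refine H.NGa_gen lam hlam i hi hh hhh hlh ((H.al A).filter (fun e => v ∉ H.inc e))
    (H.p (i / H.n) A)
    (fun e he => (H.p_bounds _ _ A h e (Finset.mem_filter.1 he).1).1)
    (by rw [hps]; linarith) (by rw [hps]; linarith)
    (H.X (i / H.n) A v - H.s v)
    (fun e => H.X (i / H.n + 1 / H.n) (insert e A) v - H.s v) ?_ ?_ ?_
  · intro e he
    obtain ⟨he1, he2⟩ := Finset.mem_filter.1 he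
    rw [hdiff e]
    exact H.X_change _ _ A h v hv1 hv2 e he1 he2
  · rw [Finset.sum_congr rfl fun e _ => by rw [hdiff e]]
    exact H.X_drift _ _ A h v hv1 hv2
  · exact h.hX v hv1 hv2

end NH

end Pool.Agent.W_cd7020_h81n
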