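import Pool.Agent.W_cd7020_h81n.NF
import Pool.Agent.W_cd7020_h81n.NG

/-!
# The potential of one variable in one step of the nibble
-/

set_option autoImplicit false

namespace Pool.Agent.W_cd7020_h81n

open Finset

namespace NH

variable {η N : Type*} [DecidableEq η] [DecidableEq N] (H : NH η N)

/-- `pot_one` with the parameters of the nibble. -/
theorem NGa_gen (lam : ℝ) (hlam : 0 < lam) (i : ℕ) (hi : ((i : ℝ) + 1) / H.n ≤ 1 - H.τ)
    (hh : ℝ) (hhh : hh = 7 / (H.n * H.τ ^ 2 * H.e₀) + 96 / (H.n * H.τ)) (hlh : lam * hh ≤ 1)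
    {σ : Type*} (S : Finset σ) (p : σ → ℝ) (hp0 : ∀ u ∈ S, 0 ≤ p u)
    (hp1 : ∑ u ∈ S, p u ≤ 1) (hp2 : 1 / 2 ≤ ∑ u ∈ S, p u) (D : ℝ) (D' : σ → ℝ)
    (hb : ∀ u ∈ S, |D' u - D| ≤ 7 / (H.n * H.τ ^ 2))
    (hdr : |∑ u ∈ S, p u * (D' u - D)| ≤ 12 * H.er i / (H.n * (1 - (i : ℝ) / H.n)))
    (hD : |D| ≤ H.er i) :
    ∑ u ∈ S, p u * Real.cosh (lam * (D' u / H.er (i + 1))) ≤
      Real.cosh (lam * (D / H.er i)) * (1 + (lam * hh) ^ 2) +
        6 * lam * Real.exp (lam / 2) / (H.n * H.τ) := by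
  have hn := H.n_pos
  have hτ := H.τ0
  have he := H.e0
  have h1n : (i : ℝ) / H.n + 1 / H.n ≤ 1 - H.τ := by
    rw [← add_div]; exact hi
  have hin : (i : ℝ) / H.n ≤ 1 - H.τ := by
    have : 0 ≤ 1 / (H.n : ℝ) := by positivity
    linarith
  obtain ⟨b1, _, _⟩ := H.er_bounds i hin
  obtain ⟨s1, s2, s3⟩ := H.er_step i hi
  have hpos : 0 < H.er i := lt_of_lt_of_le he b1
  set x : ℝ := 1 / (H.n * (1 - (i : ℝ) / H.n)) with hx
  have hτi : H.τ ≤ 1 - (i : ℝ) / H.n := by linarith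
  have hx0 : 0 ≤ x := by
    have : 0 < 1 - (i : ℝ) / H.n := lt_of_lt_of_le hτ hτi
    positivity
  have hx1 : x ≤ 1 / (H.n * H.τ) :=
    one_div_le_one_div_of_le (by positivity) (mul_le_mul_of_nonneg_left hτi hn.le)
  have hq : 7 / (H.n * H.τ ^ 2) / H.er i + 96 * x ≤ hh := by
    rw [hhh]
    have e1 : 7 / (H.n * H.τ ^ 2) / H.er i ≤ 7 / (H.n * H.τ ^ 2 * H.e₀) := by
      rw [div_div]
      exact div_le_div_of_nonneg_left (by norm_num) (by positivity)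
        (mul_le_mul_of_nonneg_left b1 (by positivity))
    have e2 : 96 * x ≤ 96 / (H.n * H.τ) := by
      calc 96 * x ≤ 96 * (1 / (H.n * H.τ)) := mul_le_mul_of_nonneg_left hx1 (by norm_num)
        _ = 96 / (H.n * H.τ) := by ring
    linarith
  have hq0 : 0 ≤ 7 / (H.n * H.τ ^ 2) / H.er i + 96 * x :=
    add_nonneg (div_nonneg (by positivity) hpos.le) (mul_nonneg (by norm_num) hx0)
  have hlq : lam * (7 / (H.n * H.τ ^ 2) / H.er i + 96 * x) ≤ lam * hh :=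
    mul_le_mul_of_nonneg_left hq hlam.le
  have hlq0 : 0 ≤ lam * (7 / (H.n * H.τ ^ 2) / H.er i + 96 * x) := mul_nonneg hlam.le hq0
  have key := pot_one S p hp0 hp1 hp2 D D' (H.er i) (H.er (i + 1)) (7 / (H.n * H.τ ^ 2)) x lam hb
    (by
      refine hdr.trans (le_of_eq ?_)
      rw [hx]; ring) hpos s1 s2 s3 hD hlam hx0 (hlq.trans hlh)
  refine key.trans ?_
  have hc : 0 ≤ Real.cosh (lam * (D / H.er i)) := (Real.cosh_pos _).le
  have e3 : Real.cosh (lam * (D / H.er i)) *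
      (1 + (lam * (7 / (H.n * H.τ ^ 2) / H.er i + 96 * x)) ^ 2) ≤
      Real.cosh (lam * (D / H.er i)) * (1 + (lam * hh) ^ 2) := by
    refine mul_le_mul_of_nonneg_left ?_ hc
    have := pow_le_pow_left₀ hlq0 hlq 2
    linarith
  have e4 : 6 * lam * Real.exp (lam / 2) * x ≤ 6 * lam * Real.exp (lam / 2) / (H.n * H.τ) := by
    calc 6 * lam * Real.exp (lam / 2) * x ≤ 6 * lam * Real.exp (lam / 2) * (1 / (H.n * H.τ)) :=
          mul_le_mul_of_nonneg_left hx1 (by positivity)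
      _ = 6 * lam * Real.exp (lam / 2) / (H.n * H.τ) := by ring
  linarith

/-- Sums over the index set. -/
theorem NGa_sum {ι : Type*} (I : Finset ι) (F c : ι → ℝ) (q d : ℝ)
    (h : ∀ j ∈ I, F j ≤ c j * q + d) : ∑ j ∈ I, F j ≤ (∑ j ∈ I, c j) * q + I.card * d := by
  refine (Finset.sum_le_sum h).trans (le_of_eq ?_)
  rw [Finset.sum_add_distrib, Finset.sum_mul, Finset.sum_const, nsmul_eq_mul]

end NH

end Pool.Agent.W_cd7020_h81n
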